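import Pool.Agent.Q197.FM.Ind

/-!
# Exponential inequalities for numbers of successes
-/

set_option autoImplicit false
set_option linter.unusedSectionVars false

namespace Pool.Agent.Q197.BH

open Finset Filter MeasureTheory ProbabilityTheory Pool.Agent.Q197.FM
open scoped Topology

variable {Ω : Type*} [MeasurableSpace Ω] {μ : Measure Ω} [IsProbabilityMeasure μ] {A : Ω → Set ℕ}

open Classical in
/-- The number of successes. -/
noncomputable def sc {ι : Type*} (W : ι → Finset ℕ) (I : Finset ι) (S : Set ℕ) : ℝ :=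
  ((I.filter (fun i => ∀ a ∈ W i, a ∈ S)).card : ℝ)

/-- The probability of a success. -/
noncomputable def pw (μ : Measure Ω) (A : Ω → Set ℕ) (V : Finset ℕ) : ℝ := ∏ a ∈ V, μ.real {ω | a ∈ A ω}

theorem pw_nonneg (V : Finset ℕ) : 0 ≤ pw μ A V := prod_nonneg (fun _ _ => measureReal_nonneg)

theorem pw_le_one (V : Finset ℕ) : pw μ A V ≤ 1 := prod_le_one (fun _ _ => measureReal_nonneg) (fun _ _ => measureReal_le_one)

theorem meas_all (hA : IndepElems μ A) (V : Finset ℕ) : MeasurableSet {ω | ∀ a ∈ V, a ∈ A ω} := by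
  have : {ω | ∀ a ∈ V, a ∈ A ω} = ⋂ a ∈ V, {ω | a ∈ A ω} := by
    ext ω
    simp
  rw [this]
  exact Finset.measurableSet_biInter _ (fun a _ => hA.meas a)

open Classical in
theorem sc_eq {ι : Type*} (W : ι → Finset ℕ) (I : Finset ι) (S : Set ℕ) :
    sc W I S = ∑ i ∈ I, if ∀ a ∈ W i, a ∈ S then (1 : ℝ) else 0 := by
  unfold sc
  rw [card_filter]
  push_cast
  rfl

theorem measurable_sc (hA : IndepElems μ A) {ι : Type*} (W : ι → Finset ℕ) (I : Finset ι) :
    Measurable (fun ω => sc W I (A ω)) := by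
  classical
  simp only [sc_eq]
  refine Finset.measurable_sum _ (fun i _ => ?_)
  exact Measurable.ite (meas_all hA (W i)) measurable_const measurable_const

theorem sc_nonneg {ι : Type*} (W : ι → Finset ℕ) (I : Finset ι) (S : Set ℕ) : 0 ≤ sc W I S := Nat.cast_nonneg _

theorem sc_le {ι : Type*} (W : ι → Finset ℕ) (I : Finset ι) (S : Set ℕ) : sc W I S ≤ I.card := by
  classical
  exact Nat.cast_le.2 (card_filter_le _ _)

theorem integrable_exp (hA : IndepElems μ A) {ι : Type*} (W : ι → Finset ℕ) (I : Finset ι) (l : ℝ) :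
    Integrable (fun ω => Real.exp (l * sc W I (A ω))) μ := by
  refine Integrable.of_bound ((measurable_const.mul (measurable_sc hA W I)).exp.aestronglyMeasurable)
    (Real.exp (|l| * I.card)) (ae_of_all _ (fun ω => ?_))
  rw [Real.norm_eq_abs, abs_of_pos (Real.exp_pos _), Real.exp_le_exp]
  calc l * sc W I (A ω) ≤ |l| * sc W I (A ω) := mul_le_mul_of_nonneg_right (le_abs_self l) (sc_nonneg _ _ _)
    _ ≤ |l| * I.card := mul_le_mul_of_nonneg_left (sc_le _ _ _) (abs_nonneg _)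

theorem exp_sc (hA : IndepElems μ A) {ι : Type*} (I : Finset ι) (W : ι → Finset ℕ)
    (hd : ∀ i ∈ I, ∀ j ∈ I, i ≠ j → Disjoint (W i) (W j)) (l : ℝ) :
    ∫ ω, Real.exp (l * sc W I (A ω)) ∂μ = ∏ i ∈ I, (1 + (Real.exp l - 1) * pw μ A (W i)) := by
  classical
  induction I using Finset.induction_on with
  | empty => simp [sc]
  | insert i I hi ih =>
    rw [prod_insert hi, ← ih (fun a ha b hb => hd a (mem_insert_of_mem ha) b (mem_insert_of_mem hb))]
    obtain ⟨T, hT⟩ : ∃ T : Finset ℕ, T = I.biUnion W := ⟨_, rfl⟩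
    have hdis : Disjoint (W i) T := by
      rw [hT, disjoint_biUnion_right]
      intro j hj
      exact hd i (mem_insert_self i I) j (mem_insert_of_mem hj) (fun h => hi (h ▸ hj))
    have hfun : iIndepFun (fun a => ({ω | a ∈ A ω} : Set Ω).indicator (fun _ => (1 : ℕ))) μ :=
      hA.indep.iIndepFun_indicator
    have h1 := hfun.indepFun_finset (W i) T hdis (fun a => (measurable_const.indicator (hA.meas a)))
    have hmem : ∀ (a : ℕ) (ω : Ω), ({ω | a ∈ A ω} : Set Ω).indicator (fun _ => (1 : ℕ)) ω = 1 ↔ a ∈ A ω := by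
      intro a ω
      by_cases h : a ∈ A ω
      · rw [Set.indicator_of_mem (show ω ∈ {ω | a ∈ A ω} from h)]
        simp [h]
      · rw [Set.indicator_of_notMem (show ω ∉ {ω | a ∈ A ω} from h)]
        simp [h]
    have h2 := h1.comp (φ := fun g : (W i) → ℕ => if ∀ a, g a = 1 then Real.exp l else (1 : ℝ))
      (ψ := fun g : T → ℕ => Real.exp (l * ((I.filter (fun j => ∀ a, ∀ ha : a ∈ T, a ∈ W j → g ⟨a, ha⟩ = 1)).card : ℝ)))
      (Measurable.of_discrete) (Measurable.of_discrete)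
    have e1 : ((fun g : (W i) → ℕ => if ∀ a, g a = 1 then Real.exp l else (1 : ℝ)) ∘
        fun ω (a : W i) => ({ω | (a : ℕ) ∈ A ω} : Set Ω).indicator (fun _ => (1 : ℕ)) ω) =
        fun ω => if ∀ a ∈ W i, a ∈ A ω then Real.exp l else 1 := by
      funext ω
      simp only [Function.comp_apply, hmem, Subtype.forall]
    have e2 : ((fun g : T → ℕ => Real.exp (l * ((I.filter (fun j => ∀ a, ∀ ha : a ∈ T, a ∈ W j → g ⟨a, ha⟩ = 1)).card : ℝ))) ∘
        fun ω (a : T) => ({ω | (a : ℕ) ∈ A ω} : Set Ω).indicator (fun _ => (1 : ℕ)) ω) =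
        fun ω => Real.exp (l * sc W I (A ω)) := by
      funext ω
      simp only [Function.comp_apply, hmem]
      unfold sc
      congr 4
      apply filter_congr
      intro j hj
      constructor
      · intro h a ha
        refine h a ?_ ha
        rw [hT, mem_biUnion]
        exact ⟨j, hj, ha⟩
      · intro h a _ ha
        exact h a ha
    rw [e1, e2] at h2
    have hm : MeasurableSet {ω | ∀ a ∈ W i, a ∈ A ω} := meas_all hA (W i)
    have h3 : ∫ ω, (if ∀ a ∈ W i, a ∈ A ω then Real.exp l else 1) ∂μ = 1 + (Real.exp l - 1) * pw μ A (W i) := by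
      have h4 : (fun ω => if ∀ a ∈ W i, a ∈ A ω then Real.exp l else (1 : ℝ)) =
          fun ω => 1 + (Real.exp l - 1) * ({ω | ∀ a ∈ W i, a ∈ A ω} : Set Ω).indicator (fun _ => (1 : ℝ)) ω := by
        funext ω
        by_cases h : ∀ a ∈ W i, a ∈ A ω
        · rw [if_pos h, Set.indicator_of_mem (show ω ∈ {ω | ∀ a ∈ W i, a ∈ A ω} from h)]
          ring
        · rw [if_neg h, Set.indicator_of_notMem (show ω ∉ {ω | ∀ a ∈ W i, a ∈ A ω} from h)]
          ring
      rw [h4, integral_add (integrable_const _) (((integrable_const (1 : ℝ)).indicator hm).const_mul _), integral_const_mul,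
        integral_indicator_const (1 : ℝ) hm, hA.prob_all]
      simp [pw]
    have h5 := h2.integral_mul_eq_mul_integral (by
      exact (Measurable.ite hm measurable_const measurable_const).aestronglyMeasurable)
      ((integrable_exp hA W I l).aestronglyMeasurable)
    rw [h3] at h5
    rw [← h5]
    refine integral_congr_ae (ae_of_all _ (fun ω => ?_))
    simp only [Pi.mul_apply]
    rw [sc_eq, sum_insert hi, ← sc_eq, mul_add, Real.exp_add]
    congr 1
    by_cases h : ∀ a ∈ W i, a ∈ A ω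
    · rw [if_pos h, if_pos h, mul_one]
    · rw [if_neg h, if_neg h, mul_zero, Real.exp_zero]

theorem mgf_le (hA : IndepElems μ A) {ι : Type*} (I : Finset ι) (W : ι → Finset ℕ)
    (hd : ∀ i ∈ I, ∀ j ∈ I, i ≠ j → Disjoint (W i) (W j)) (l : ℝ) :
    mgf (fun ω => sc W I (A ω)) μ l ≤ Real.exp ((Real.exp l - 1) * ∑ i ∈ I, pw μ A (W i)) := by
  unfold mgf
  rw [exp_sc hA I W hd l, mul_sum, Real.exp_sum]
  refine prod_le_prod (fun i _ => ?_) (fun i _ => ?_)
  · have h1 := pw_nonneg (μ := μ) (A := A) (W i)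
    have h2 := pw_le_one (μ := μ) (A := A) (W i)
    have h3 := Real.exp_pos l
    nlinarith
  · have := Real.add_one_le_exp ((Real.exp l - 1) * pw μ A (W i))
    linarith

theorem upper_tail (hA : IndepElems μ A) {ι : Type*} (I : Finset ι) (W : ι → Finset ℕ)
    (hd : ∀ i ∈ I, ∀ j ∈ I, i ≠ j → Disjoint (W i) (W j)) {t M : ℝ} (hM : 0 < M) (ht : 0 ≤ t) (htM : t ≤ 2 * M)
    (hs : ∑ i ∈ I, pw μ A (W i) ≤ M) :
    μ.real {ω | ∑ i ∈ I, pw μ A (W i) + t ≤ sc W I (A ω)} ≤ Real.exp (-(t ^ 2 / (4 * M))) := by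
  obtain ⟨m, hm⟩ : ∃ m : ℝ, m = ∑ i ∈ I, pw μ A (W i) := ⟨_, rfl⟩
  have hm0 : 0 ≤ m := by rw [hm]; exact sum_nonneg (fun i _ => pw_nonneg _)
  obtain ⟨l, hl⟩ : ∃ l : ℝ, l = t / (2 * M) := ⟨_, rfl⟩
  have hl0 : 0 ≤ l := by rw [hl]; positivity
  have hl1 : l ≤ 1 := by
    rw [hl, div_le_one (by positivity)]
    exact htM
  have h1 := measure_ge_le_exp_mul_mgf (m + t) hl0 (integrable_exp hA W I l)
  have h2 := mgf_le hA I W hd l
  rw [← hm] at h2 hs ⊢
  refine h1.trans ((mul_le_mul_of_nonneg_left h2 (Real.exp_pos _).le).trans ?_)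
  rw [← Real.exp_add, Real.exp_le_exp]
  have h3 : Real.exp l - 1 ≤ l + l ^ 2 := by
    have := Real.abs_exp_sub_one_sub_id_le (x := l) (by rw [abs_of_nonneg hl0]; exact hl1)
    have h4 := (abs_le.1 this).2
    linarith
  have h5 : (Real.exp l - 1) * m ≤ (l + l ^ 2) * m := mul_le_mul_of_nonneg_right h3 hm0
  have h6 : l ^ 2 * m ≤ l ^ 2 * M := mul_le_mul_of_nonneg_left hs (sq_nonneg _)
  have h7 : l ^ 2 * M - l * t = -(t ^ 2 / (4 * M)) := by
    rw [hl]
    field_simp
    ring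
  nlinarith

theorem lower_tail (hA : IndepElems μ A) {ι : Type*} (I : Finset ι) (W : ι → Finset ℕ)
    (hd : ∀ i ∈ I, ∀ j ∈ I, i ≠ j → Disjoint (W i) (W j)) {t M : ℝ} (hM : 0 < M) (ht : 0 ≤ t) (htM : t ≤ 2 * M)
    (hs : ∑ i ∈ I, pw μ A (W i) ≤ M) :
    μ.real {ω | sc W I (A ω) ≤ ∑ i ∈ I, pw μ A (W i) - t} ≤ Real.exp (-(t ^ 2 / (4 * M))) := by
  obtain ⟨m, hm⟩ : ∃ m : ℝ, m = ∑ i ∈ I, pw μ A (W i) := ⟨_, rfl⟩
  have hm0 : 0 ≤ m := by rw [hm]; exact sum_nonneg (fun i _ => pw_nonneg _)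
  obtain ⟨l, hl⟩ : ∃ l : ℝ, l = t / (2 * M) := ⟨_, rfl⟩
  have hl0 : 0 ≤ l := by rw [hl]; positivity
  have hl1 : l ≤ 1 := by
    rw [hl, div_le_one (by positivity)]
    exact htM
  have h1 := measure_le_le_exp_mul_mgf (m - t) (show -l ≤ 0 by linarith) (integrable_exp hA W I (-l))
  have h2 := mgf_le hA I W hd (-l)
  rw [← hm] at h2 hs ⊢
  refine h1.trans ((mul_le_mul_of_nonneg_left h2 (Real.exp_pos _).le).trans ?_)
  rw [← Real.exp_add, Real.exp_le_exp]
  have h3 : Real.exp (-l) - 1 ≤ -l + l ^ 2 := by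
    have := Real.abs_exp_sub_one_sub_id_le (x := -l) (by rw [abs_neg, abs_of_nonneg hl0]; exact hl1)
    have h4 := (abs_le.1 this).2
    nlinarith
  have h5 : (Real.exp (-l) - 1) * m ≤ (-l + l ^ 2) * m := mul_le_mul_of_nonneg_right h3 hm0
  have h6 : l ^ 2 * m ≤ l ^ 2 * M := mul_le_mul_of_nonneg_left hs (sq_nonneg _)
  have h7 : l ^ 2 * M - l * t = -(t ^ 2 / (4 * M)) := by
    rw [hl]
    field_simp
    ring
  nlinarith

/-- A symmetric relation with few neighbours has a colouring with few colours. -/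
theorem exists_colouring {α : Type*} [DecidableEq α] (X : Finset α) (R : α → α → Prop) (hs : ∀ x y, R x y → R y x)
    (Δ : ℕ) (hΔ : ∀ x ∈ X, ∀ Y ⊆ X, (∀ y ∈ Y, R x y) → Y.card ≤ Δ) :
    ∃ col : α → Fin (Δ + 1), ∀ x ∈ X, ∀ y ∈ X, x ≠ y → R x y → col x ≠ col y := by
  classical
  induction X using Finset.induction_on with
  | empty => exact ⟨fun _ => 0, fun x hx => absurd hx (notMem_empty x)⟩
  | insert a X ha ih =>
    obtain ⟨col, hcol⟩ := ih (fun x hx Y hY h => hΔ x (mem_insert_of_mem hx) Y (hY.trans (subset_insert _ _)) h)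
    have h1 : ((X.filter (R a)).image col).card < (univ : Finset (Fin (Δ + 1))).card := by
      rw [card_univ, Fintype.card_fin]
      refine lt_of_le_of_lt card_image_le ?_
      have := hΔ a (mem_insert_self _ _) (X.filter (R a)) ((filter_subset _ _).trans (subset_insert _ _))
        (fun y hy => (mem_filter.1 hy).2)
      omega
    obtain ⟨c, _, hc⟩ := exists_mem_notMem_of_card_lt_card h1
    refine ⟨Function.update col a c, fun x hx y hy hxy hR => ?_⟩
    rw [mem_insert] at hx hy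
    rcases hx with rfl | hx <;> rcases hy with rfl | hy
    · exact absurd rfl hxy
    · rw [Function.update_self, Function.update_of_ne (fun h => hxy h.symm)]
      intro h
      exact hc (mem_image.2 ⟨y, mem_filter.2 ⟨hy, hR⟩, h.symm⟩)
    · rw [Function.update_self, Function.update_of_ne hxy]
      intro h
      exact hc (mem_image.2 ⟨x, mem_filter.2 ⟨hx, hs _ _ hR⟩, h⟩)
    · have hxa : x ≠ a := fun h => ha (h ▸ hx)
      have hya : y ≠ a := fun h => ha (h ▸ hy)
      rw [Function.update_of_ne hxa, Function.update_of_ne hya]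
      exact hcol x hx y hy hxy hR

theorem sc_split {ι : Type*} [DecidableEq ι] (W : ι → Finset ℕ) (I : Finset ι) (S : Set ℕ) {k : ℕ} (col : ι → Fin k) :
    sc W I S = ∑ c, sc W (I.filter (fun i => col i = c)) S := by
  classical
  simp only [sc_eq]
  rw [← sum_fiberwise I col]

/-- Concentration for sets of values with few intersections. -/
theorem conc (hA : IndepElems μ A) {ι : Type*} [DecidableEq ι] (I : Finset ι) (W : ι → Finset ℕ) (Δ : ℕ)
    (hΔ : ∀ x ∈ I, ∀ Y ⊆ I, (∀ y ∈ Y, ¬ Disjoint (W x) (W y)) → Y.card ≤ Δ) {t M : ℝ} (hM : 0 < M) (ht : 0 ≤ t)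
    (htM : t ≤ 2 * M) (hs : ∑ i ∈ I, pw μ A (W i) ≤ M) :
    μ.real {ω | (Δ + 1) * t < |sc W I (A ω) - ∑ i ∈ I, pw μ A (W i)|} ≤ 2 * (Δ + 1) * Real.exp (-(t ^ 2 / (4 * M))) := by
  classical
  obtain ⟨col, hcol⟩ := exists_colouring I (fun x y => ¬ Disjoint (W x) (W y)) (fun x y h h' => h h'.symm) Δ hΔ
  obtain ⟨J, hJ⟩ : ∃ J : Fin (Δ + 1) → Finset ι, J = fun c => I.filter (fun i => col i = c) := ⟨_, rfl⟩
  have hd : ∀ c, ∀ i ∈ J c, ∀ j ∈ J c, i ≠ j → Disjoint (W i) (W j) := by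
    intro c i hi j hj hij
    rw [hJ, mem_filter] at hi hj
    by_contra hcon
    exact hcol i hi.1 j hj.1 hij hcon (hi.2.trans hj.2.symm)
  have hsum : ∑ i ∈ I, pw μ A (W i) = ∑ c, ∑ i ∈ J c, pw μ A (W i) := by
    rw [hJ, ← sum_fiberwise I col]
  have hJs : ∀ c, ∑ i ∈ J c, pw μ A (W i) ≤ M := by
    intro c
    refine le_trans (sum_le_sum_of_subset_of_nonneg (t := I) ?_ (fun i _ _ => pw_nonneg _)) hs
    rw [hJ]
    exact filter_subset _ _
  have hsub : {ω | (Δ + 1) * t < |sc W I (A ω) - ∑ i ∈ I, pw μ A (W i)|} ⊆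
      (⋃ c ∈ (univ : Finset (Fin (Δ + 1))), {ω | ∑ i ∈ J c, pw μ A (W i) + t ≤ sc W (J c) (A ω)}) ∪
      (⋃ c ∈ (univ : Finset (Fin (Δ + 1))), {ω | sc W (J c) (A ω) ≤ ∑ i ∈ J c, pw μ A (W i) - t}) := by
    intro ω hω
    by_contra hcon
    simp only [Set.mem_union, Set.mem_iUnion, Set.mem_ofPred_eq, mem_univ, not_or, not_exists, not_le] at hcon hω
    have h1 : ∀ c, |sc W (J c) (A ω) - ∑ i ∈ J c, pw μ A (W i)| ≤ t := by
      intro c
      have h2 := hcon.1 c trivial
      have h3 := hcon.2 c trivial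
      rw [abs_le]
      constructor <;> linarith
    have h4 : |sc W I (A ω) - ∑ i ∈ I, pw μ A (W i)| ≤ (Δ + 1) * t := by
      rw [sc_split W I (A ω) col, hsum, hJ, ← sum_sub_distrib]
      refine (abs_sum_le_sum_abs _ _).trans ?_
      have h5 : ∀ c ∈ (univ : Finset (Fin (Δ + 1))), |sc W (I.filter (fun i => col i = c)) (A ω) -
          ∑ i ∈ I.filter (fun i => col i = c), pw μ A (W i)| ≤ t := by
        intro c _
        have := h1 c
        rw [hJ] at this
        exact this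
      refine (sum_le_sum h5).trans (le_of_eq ?_)
      rw [sum_const, card_univ, Fintype.card_fin, nsmul_eq_mul]
      push_cast
      ring
    linarith
  refine (measureReal_mono hsub).trans ((measureReal_union_le _ _).trans ?_)
  have h1 := measureReal_biUnion_finset_le (μ := μ) (univ : Finset (Fin (Δ + 1)))
    (fun c => {ω | ∑ i ∈ J c, pw μ A (W i) + t ≤ sc W (J c) (A ω)})
  have h2 := measureReal_biUnion_finset_le (μ := μ) (univ : Finset (Fin (Δ + 1)))
    (fun c => {ω | sc W (J c) (A ω) ≤ ∑ i ∈ J c, pw μ A (W i) - t})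
  have h3 : ∑ c, μ.real {ω | ∑ i ∈ J c, pw μ A (W i) + t ≤ sc W (J c) (A ω)} ≤ (Δ + 1) * Real.exp (-(t ^ 2 / (4 * M))) := by
    refine (sum_le_sum (fun c _ => upper_tail hA (J c) W (hd c) hM ht htM (hJs c))).trans (le_of_eq ?_)
    rw [sum_const, card_univ, Fintype.card_fin, nsmul_eq_mul]
    push_cast
    ring
  have h4 : ∑ c, μ.real {ω | sc W (J c) (A ω) ≤ ∑ i ∈ J c, pw μ A (W i) - t} ≤ (Δ + 1) * Real.exp (-(t ^ 2 / (4 * M))) := by
    refine (sum_le_sum (fun c _ => lower_tail hA (J c) W (hd c) hM ht htM (hJs c))).trans (le_of_eq ?_)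
    rw [sum_const, card_univ, Fintype.card_fin, nsmul_eq_mul]
    push_cast
    ring
  linarith

end Pool.Agent.Q197.BH
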