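import Pool.Agent.Q197.BH.Schinzel

/-!
# The formula for the number of the `n` with `F_1(n), ..., F_g(n), N - G(n)` in the random set
-/

set_option autoImplicit false
set_option linter.unusedSectionVars false

namespace Pool.Agent.Q197.BH

open Finset Filter Polynomial MeasureTheory ProbabilityTheory Pool.Agent.Q197.FM Pool.Agent.Q253.Line
open scoped Topology

/-- The family `F_1, ..., F_g, N - G`. -/
noncomputable def fam {g : ℕ} (F : Fin g → ℤ[X]) (G : ℤ[X]) (N : ℕ) : Fin (g + 1) → ℤ[X] :=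
  Fin.snoc (α := fun _ => ℤ[X]) F (C (N : ℤ) - G)

theorem fam_cast {g : ℕ} (F : Fin g → ℤ[X]) (G : ℤ[X]) (N : ℕ) (i : Fin g) : fam F G N i.castSucc = F i := by
  unfold fam
  rw [Fin.snoc_castSucc]

theorem fam_last {g : ℕ} (F : Fin g → ℤ[X]) (G : ℤ[X]) (N : ℕ) : fam F G N (Fin.last g) = C (N : ℤ) - G := by
  unfold fam
  rw [Fin.snoc_last]

theorem fam_prod {g : ℕ} (F : Fin g → ℤ[X]) (G : ℤ[X]) (N : ℕ) : ∏ k, fam F G N k = (∏ i, F i) * (C (N : ℤ) - G) := by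
  rw [Fin.prod_univ_castSucc, fam_last]
  simp only [fam_cast]

theorem natDegree_shift (G : ℤ[X]) (a : ℤ) : (C a - G).natDegree = G.natDegree := by
  rw [← natDegree_neg, neg_sub, natDegree_sub_C]

theorem fam_sys {g : ℕ} {F : Fin g → ℤ[X]} {G : ℤ[X]} (hF : ∀ i, 1 ≤ (F i).natDegree ∧ 0 < (F i).leadingCoeff)
    (hinj : Function.Injective F) (hG : 1 ≤ G.natDegree) (hG' : 0 < G.leadingCoeff) : ∃ d D : ℕ, ∀ᶠ N : ℕ in atTop,
    NFD ((∏ i, F i) * (C (N : ℤ) - G)) → Sys (g + 1) d D (XN G N) (fam F G N) := by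
  obtain ⟨H1, hH1⟩ := coef_bound G
  choose H2 hH2 using fun i => coef_bound (F i)
  obtain ⟨H, hH⟩ : ∃ H : ℕ, H = H1 + ∑ i, H2 i := ⟨_, rfl⟩
  have hX := XN_top hG hG'
  have hHG : ∀ i, |G.coeff i| ≤ H := fun i => (hH1 i).trans (by exact_mod_cast (show H1 ≤ H by omega))
  have hHF : ∀ k i, |(F k).coeff i| ≤ H := fun k i => (hH2 k i).trans (by
    have h1 : H2 k ≤ ∑ i, H2 i := single_le_sum (f := H2) (fun _ _ => Nat.zero_le _) (mem_univ k)
    exact_mod_cast (show H2 k ≤ H by omega))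
  refine ⟨G.natDegree + ∑ i, (F i).natDegree, 2 * G.natDegree + 3, ?_⟩
  filter_upwards [Tn_iff hG hG', hX.eventually_ge_atTop (G.natDegree + 1 + H + 2), eventually_gt_atTop (2 * H)] with N h1 h2 h3 hN
  obtain ⟨x, hx⟩ : ∃ x : ℕ, x = XN G N := ⟨_, rfl⟩
  rw [← hx] at h1 h2 ⊢
  have hNle : N ≤ x ^ (2 * G.natDegree + 2) := by
    have h4 : (N : ℤ) ≤ G.eval ((x + 1 : ℕ) : ℤ) := by
      by_contra hcon
      push Not at hcon
      have h9 := ((h1 (x + 1)).1 ⟨by omega, by omega⟩).2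
      omega
    have h5 := val_le le_rfl hHG (x := x + 1) (N := x + 1) le_rfl (by omega)
    have h6 : N ≤ (G.natDegree + 1) * (H * (x + 1) ^ G.natDegree) := by omega
    have h7 : (x + 1) ^ G.natDegree ≤ (x * x) ^ G.natDegree := Nat.pow_le_pow_left (by nlinarith) _
    calc N ≤ (G.natDegree + 1) * (H * (x + 1) ^ G.natDegree) := h6
      _ ≤ x * (x * (x * x) ^ G.natDegree) := Nat.mul_le_mul (by omega) (Nat.mul_le_mul (by omega) h7)
      _ = x ^ (2 * G.natDegree + 2) := by ring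
  have hpow : ∀ a : ℕ, 1 ≤ a → x ≤ x ^ a := fun a ha => by
    calc x = x ^ 1 := (pow_one x).symm
      _ ≤ x ^ a := Nat.pow_le_pow_right (by omega) ha
  refine ⟨fun k => ?_, fun k => ?_, fun k i => ?_, fun i j hij => ?_, by rw [fam_prod]; exact hN⟩
  · refine Fin.lastCases ?_ (fun i => ?_) k
    · rw [fam_last, natDegree_shift]
      exact hG
    · rw [fam_cast]
      exact (hF i).1
  · refine Fin.lastCases ?_ (fun i => ?_) k
    · rw [fam_last, natDegree_shift]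
      omega
    · rw [fam_cast]
      have : (F i).natDegree ≤ ∑ i, (F i).natDegree := single_le_sum (f := fun i => (F i).natDegree) (fun _ _ => Nat.zero_le _) (mem_univ i)
      omega
  · have hbig : (N : ℤ) + H ≤ (x : ℤ) ^ (2 * G.natDegree + 3) := by
      have h4 : N + H ≤ x ^ (2 * G.natDegree + 3) := by
        have h5 : x ≤ x ^ (2 * G.natDegree + 2) := hpow _ (by omega)
        calc N + H ≤ x ^ (2 * G.natDegree + 2) + x ^ (2 * G.natDegree + 2) := Nat.add_le_add hNle (by omega)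
          _ = 2 * x ^ (2 * G.natDegree + 2) := by ring
          _ ≤ x * x ^ (2 * G.natDegree + 2) := Nat.mul_le_mul_right _ (by omega)
          _ = _ := by ring
      exact_mod_cast h4
    refine Fin.lastCases ?_ (fun j => ?_) k
    · rw [fam_last, coeff_sub]
      refine le_trans ?_ hbig
      refine (abs_sub _ _).trans ?_
      refine add_le_add ?_ (hHG i)
      rw [coeff_C]
      split_ifs
      · rw [abs_of_nonneg (by positivity)]
      · rw [abs_zero]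
        positivity
    · rw [fam_cast]
      have h4 := hHF j i
      have h5 : (0 : ℤ) ≤ N := by positivity
      linarith
  · have hne : ∀ k : Fin g, F k ≠ C (N : ℤ) - G ∧ F k ≠ -(C (N : ℤ) - G) := by
      intro k
      have h4 := abs_le.1 (hHF k 0)
      have h5 := abs_le.1 (hHG 0)
      constructor
      · intro h
        have h6 := congrArg (fun p => p.coeff 0) h
        simp only [coeff_sub, coeff_C_zero] at h6
        omega
      · intro h
        have h6 := congrArg (fun p => p.coeff 0) h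
        simp only [coeff_neg, coeff_sub, coeff_C_zero] at h6
        omega
    revert hij
    refine Fin.lastCases ?_ (fun i => ?_) i
    · refine Fin.lastCases ?_ (fun j => ?_) j
      · intro h
        exact absurd rfl h
      · intro _
        rw [fam_last, fam_cast]
        exact ⟨fun h => (hne j).1 h.symm, fun h => (hne j).2 (by rw [h, neg_neg])⟩
    · refine Fin.lastCases ?_ (fun j => ?_) j
      · intro _
        rw [fam_last, fam_cast]
        exact hne i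
      · intro hij
        rw [fam_cast, fam_cast]
        refine ⟨fun h => hij (by rw [hinj h]), fun h => ?_⟩
        have h4 := (hF i).2
        have h5 := (hF j).2
        rw [h, leadingCoeff_neg] at h4
        linarith

/-- The number of the `n` with all of `F_1(n), ..., F_g(n), N - G(n)` positive and in `S`. -/
noncomputable def Q1 {g : ℕ} (F : Fin g → ℤ[X]) (G : ℤ[X]) (S : Set ℕ) (N : ℕ) : ℝ :=
  ({n : ℕ | 1 ≤ n ∧ (∀ i, 0 < (F i).eval (n : ℤ) ∧ ((F i).eval (n : ℤ)).natAbs ∈ S) ∧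
    0 < (N : ℤ) - G.eval (n : ℤ) ∧ ((N : ℤ) - G.eval (n : ℤ)).natAbs ∈ S}.ncard : ℝ)

/-- Schinzel's main term, with the singular series truncated at `z(X)`. -/
noncomputable def SM (z : ℕ → ℕ) {g : ℕ} (F : Fin g → ℤ[X]) (G : ℤ[X]) (N : ℕ) : ℝ :=
  (XN G N : ℝ) / Real.log (XN G N) ^ (g + 1) * ((G.natDegree : ℝ) * ∏ i, ((F i).natDegree : ℝ))⁻¹ *
    ∏ p ∈ pr (z (XN G N)), ((1 - (rt ((∏ i, F i) * (C (N : ℤ) - G)) p : ℝ) / p) / (1 - 1 / (p : ℝ)) ^ (g + 1))

theorem SM_eq {z : ℕ → ℕ} {g : ℕ} {F : Fin g → ℤ[X]} {G : ℤ[X]} {N : ℕ} (hmx : ∀ k, 1 < mx (fam F G N k) (XN G N))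
    (hX : 1 < XN G N) (hG : 1 ≤ G.natDegree) (hF : ∀ i, 1 ≤ (F i).natDegree) :
    SM z F G N = MT z (fam F G N) (XN G N) *
      ((Real.log (mx (C (N : ℤ) - G) (XN G N)) / Real.log (XN G N) / G.natDegree) *
        ∏ i, (Real.log (mx (F i) (XN G N)) / Real.log (XN G N) / (F i).natDegree)) := by
  unfold SM MT W VV
  rw [fam_prod, prod_div_distrib, prod_pow]
  have h1 : ∏ k, Real.log (mx (fam F G N k) (XN G N)) =
      (∏ i, Real.log (mx (F i) (XN G N))) * Real.log (mx (C (N : ℤ) - G) (XN G N)) := by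
    rw [Fin.prod_univ_castSucc, fam_last]
    simp only [fam_cast]
  have h2 : ∏ i, Real.log (mx (F i) (XN G N)) ≠ 0 := by
    refine prod_ne_zero_iff.2 (fun i _ => ?_)
    have := hmx i.castSucc
    rw [fam_cast] at this
    exact (Real.log_pos (by exact_mod_cast this)).ne'
  have h3 : Real.log (mx (C (N : ℤ) - G) (XN G N)) ≠ 0 := by
    have := hmx (Fin.last g)
    rw [fam_last] at this
    exact (Real.log_pos (by exact_mod_cast this)).ne'
  have h4 : Real.log (XN G N : ℝ) ≠ 0 := (Real.log_pos (by exact_mod_cast hX)).ne'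
  have h5 : ∏ i, ((F i).natDegree : ℝ) ≠ 0 := prod_ne_zero_iff.2 (fun i _ => by
    have := hF i
    exact_mod_cast (show (F i).natDegree ≠ 0 by omega))
  have h6 : (G.natDegree : ℝ) ≠ 0 := by exact_mod_cast (show G.natDegree ≠ 0 by omega)
  rw [h1, prod_div_distrib, prod_div_distrib, prod_const, card_univ, Fintype.card_fin, pow_succ]
  field_simp

variable {Ω : Type*} [MeasurableSpace Ω] {μ : Measure Ω} [IsProbabilityMeasure μ] {A : Ω → Set ℕ} {z : ℕ → ℕ}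

/-- Schinzel's formula. -/
theorem schinzel (hM : Model μ A z) (hz : Level z) : ∀ᵐ ω ∂μ, ∀ (g : ℕ) (F : Fin g → ℤ[X]) (G : ℤ[X]),
    (∀ i, 1 ≤ (F i).natDegree ∧ 0 < (F i).leadingCoeff) → Function.Injective F → 1 ≤ G.natDegree → 0 < G.leadingCoeff →
    ∀ ε : ℝ, 0 < ε → ∀ᶠ N : ℕ in atTop, NFD ((∏ i, F i) * (C (N : ℤ) - G)) →
      (XN G N : ℝ) ^ (1 - ε) ≤ SM z F G N ∧ |Q1 F G (A ω) N - SM z F G N| ≤ ε * SM z F G N := by
  filter_upwards [uniform hM hz] with ω h g F G hF hinj hG hG' ε hε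
  obtain ⟨d, D, hsys⟩ := fam_sys hF hinj hG hG'
  have hX := XN_top hG hG'
  -- positivity of the values
  obtain ⟨n1, hn1⟩ : ∃ n1 : ℕ, ∀ n : ℕ, n1 ≤ n → ∀ i, 0 < (F i).eval (n : ℤ) := by
    have h1 : ∀ᶠ n : ℕ in atTop, ∀ i, 0 < (F i).eval (n : ℤ) :=
      eventually_all.2 (fun i => (eval_top (hF i).1 (hF i).2).eventually_gt_atTop 0)
    exact eventually_atTop.1 h1
  -- the ratio of the main terms
  have hR : Tendsto (fun N : ℕ => (Real.log (mx (C (N : ℤ) - G) (XN G N)) / Real.log (XN G N) / G.natDegree) *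
      ∏ i, (Real.log (mx (F i) (XN G N)) / Real.log (XN G N) / (F i).natDegree)) atTop (𝓝 1) := by
    have h1 := (mx_shift_log hG hG').div_const (G.natDegree : ℝ)
    have h2 : Tendsto (fun N : ℕ => ∏ i, (Real.log (mx (F i) (XN G N)) / Real.log (XN G N) / (F i).natDegree)) atTop
        (𝓝 (∏ i, (((F i).natDegree : ℝ) / (F i).natDegree))) :=
      tendsto_finsetProd _ (fun i _ => ((mx_log (hF i).1 (hF i).2).comp hX).div_const _)
    have h3 := h1.mul h2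
    have e1 : (G.natDegree : ℝ) / G.natDegree = 1 := div_self (by exact_mod_cast (show G.natDegree ≠ 0 by omega))
    have e2 : ∏ i, (((F i).natDegree : ℝ) / (F i).natDegree) = 1 := prod_eq_one (fun i _ => div_self (by
      have := (hF i).1
      exact_mod_cast (show (F i).natDegree ≠ 0 by omega)))
    rw [e1, e2, one_mul] at h3
    exact h3
  obtain ⟨δ, hδ⟩ : ∃ δ : ℝ, δ = min (ε / 6) (1 / 2) := ⟨_, rfl⟩
  have hδ0 : 0 < δ := by rw [hδ]; exact lt_min (by linarith) (by norm_num)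
  have hδ1 : δ ≤ ε / 6 := by rw [hδ]; exact min_le_left _ _
  have hδ2 : δ ≤ 1 / 2 := by rw [hδ]; exact min_le_right _ _
  filter_upwards [hsys, hX.eventually (h (g + 1) d D δ hδ0), hR.eventually (Metric.ball_mem_nhds 1 hδ0),
    hX.eventually (MT_big hz (g + 1) d D (b := (n1 + 1 : ℝ) / δ) (by positivity)), Tn_iff hG hG', hX.eventually_ge_atTop 4,
    hX.eventually (sqrt_mul_le (2 * d)), hX.eventually (MT_lower hz (g + 1) d D (b := 2) (e := ε) two_pos hε)] with N a1 a2 a3 a4 a5 a6 a7 a8 hN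
  have hs := a1 hN
  have b2 := a2 _ hs
  have b4 := a4 _ hs
  have b8 := a8 _ hs
  have hX0 : (1 : ℝ) ≤ (XN G N : ℝ) ^ (3 / 4 : ℝ) := Real.one_le_rpow (by exact_mod_cast (show 1 ≤ XN G N by omega)) (by norm_num)
  obtain ⟨M, hM'⟩ : ∃ M, M = MT z (fam F G N) (XN G N) := ⟨_, rfl⟩
  rw [← hM'] at b2 b4 b8
  have hn1M : (n1 : ℝ) ≤ δ * M := by
    rw [div_mul_eq_mul_div, div_le_iff₀ hδ0] at b4
    have : (n1 : ℝ) * 1 ≤ (n1 + 1) * (XN G N : ℝ) ^ (3 / 4 : ℝ) := mul_le_mul (by linarith) hX0 zero_le_one (by positivity)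
    linarith
  have hM0 : 0 ≤ M := by
    have h5 : (0 : ℝ) ≤ n1 := Nat.cast_nonneg _
    nlinarith
  -- the counts
  have hcount : |Q1 F G (A ω) N - cntS (fam F G N) (XN G N) (A ω)| ≤ n1 := by
    have hfin : {x : ℕ | 1 ≤ x ∧ x ≤ XN G N ∧ ∀ k, ((fam F G N k).eval (x : ℤ)).natAbs ∈ A ω}.Finite :=
      (Set.finite_Iic (XN G N)).subset (fun x hx => hx.2.1)
    have hk : ∀ x : ℕ, (∀ k, ((fam F G N k).eval (x : ℤ)).natAbs ∈ A ω) ↔
        (∀ i, ((F i).eval (x : ℤ)).natAbs ∈ A ω) ∧ ((N : ℤ) - G.eval (x : ℤ)).natAbs ∈ A ω := by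
      intro x
      rw [Fin.forall_fin_succ']
      rw [fam_last, eval_sub, eval_C]
      simp only [fam_cast]
    have hsub : {n : ℕ | 1 ≤ n ∧ (∀ i, 0 < (F i).eval (n : ℤ) ∧ ((F i).eval (n : ℤ)).natAbs ∈ A ω) ∧
        0 < (N : ℤ) - G.eval (n : ℤ) ∧ ((N : ℤ) - G.eval (n : ℤ)).natAbs ∈ A ω} ⊆
        {x : ℕ | 1 ≤ x ∧ x ≤ XN G N ∧ ∀ k, ((fam F G N k).eval (x : ℤ)).natAbs ∈ A ω} := by
      rintro n ⟨c1, c2, c3, c4⟩
      exact ⟨c1, ((a5 n).1 ⟨c1, c3⟩).2, (hk n).2 ⟨fun i => (c2 i).2, c4⟩⟩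
    have h1 := Set.ncard_le_ncard hsub hfin
    have h2 : {x : ℕ | 1 ≤ x ∧ x ≤ XN G N ∧ ∀ k, ((fam F G N k).eval (x : ℤ)).natAbs ∈ A ω} ⊆
        {n : ℕ | 1 ≤ n ∧ (∀ i, 0 < (F i).eval (n : ℤ) ∧ ((F i).eval (n : ℤ)).natAbs ∈ A ω) ∧
        0 < (N : ℤ) - G.eval (n : ℤ) ∧ ((N : ℤ) - G.eval (n : ℤ)).natAbs ∈ A ω} ∪ ((range n1 : Finset ℕ) : Set ℕ) := by
      rintro n ⟨c1, c2, c3⟩
      rw [Set.mem_union, mem_coe, mem_range]
      rcases Nat.lt_or_ge n n1 with h3 | h3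
      · exact Or.inr h3
      · left
        have c4 := (hk n).1 c3
        exact ⟨c1, fun i => ⟨hn1 n h3 i, c4.1 i⟩, ((a5 n).2 ⟨c1, c2⟩).2, c4.2⟩
    have h3 := (Set.ncard_le_ncard h2 ((hfin.subset hsub).union (Finset.finite_toSet _))).trans (Set.ncard_union_le _ _)
    rw [Set.ncard_coe_finset, card_range] at h3
    unfold Q1 cntS
    rw [abs_le]
    constructor
    · have : ({x : ℕ | 1 ≤ x ∧ x ≤ XN G N ∧ ∀ k, ((fam F G N k).eval (x : ℤ)).natAbs ∈ A ω}.ncard : ℝ) ≤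
          ({n : ℕ | 1 ≤ n ∧ (∀ i, 0 < (F i).eval (n : ℤ) ∧ ((F i).eval (n : ℤ)).natAbs ∈ A ω) ∧
          0 < (N : ℤ) - G.eval (n : ℤ) ∧ ((N : ℤ) - G.eval (n : ℤ)).natAbs ∈ A ω}.ncard : ℝ) + n1 := by exact_mod_cast h3
      linarith
    · have : ({n : ℕ | 1 ≤ n ∧ (∀ i, 0 < (F i).eval (n : ℤ) ∧ ((F i).eval (n : ℤ)).natAbs ∈ A ω) ∧
          0 < (N : ℤ) - G.eval (n : ℤ) ∧ ((N : ℤ) - G.eval (n : ℤ)).natAbs ∈ A ω}.ncard : ℝ) ≤
          ({x : ℕ | 1 ≤ x ∧ x ≤ XN G N ∧ ∀ k, ((fam F G N k).eval (x : ℤ)).natAbs ∈ A ω}.ncard : ℝ) := by exact_mod_cast h1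
      have h5 : (0 : ℝ) ≤ n1 := Nat.cast_nonneg _
      linarith
  -- the main terms
  have hmx1 : ∀ k, 1 < mx (fam F G N k) (XN G N) := by
    intro k
    have h1 := hs.le_mx' a7 k
    have h2 : 2 ≤ Nat.sqrt (XN G N) := by
      rw [Nat.le_sqrt']
      exact a6
    omega
  have hSM := SM_eq (z := z) hmx1 (show 1 < XN G N by omega) hG (fun i => (hF i).1)
  rw [← hM'] at hSM
  obtain ⟨R, hRd⟩ : ∃ R : ℝ, R = (Real.log (mx (C (N : ℤ) - G) (XN G N)) / Real.log (XN G N) / G.natDegree) *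
      ∏ i, (Real.log (mx (F i) (XN G N)) / Real.log (XN G N) / (F i).natDegree) := ⟨_, rfl⟩
  rw [← hRd] at hSM a3
  rw [Real.dist_eq] at a3
  obtain ⟨r1, r2⟩ := abs_le.1 a3.le
  rw [hSM]
  obtain ⟨c1, c2⟩ := abs_le.1 hcount
  obtain ⟨c3, c4⟩ := abs_le.1 b2
  have hMR1 : (1 - δ) * M ≤ M * R := by nlinarith
  have hMR2 : M * R ≤ (1 + δ) * M := by nlinarith
  have hfinal : 3 * (δ * M) ≤ ε * (M * R) := by
    have h1 : M / 2 ≤ M * R := by nlinarith
    have h2 : ε * (M / 2) ≤ ε * (M * R) := mul_le_mul_of_nonneg_left h1 hε.le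
    have h3 : 3 * (δ * M) ≤ ε * (M / 2) := by nlinarith
    linarith
  refine ⟨by nlinarith, le_trans ?_ hfinal⟩
  rw [abs_le]
  constructor <;> linarith

end Pool.Agent.Q197.BH
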