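import Pool.Agent.Q197.BH.Main
import Pool.Agent.Q197.FM.Ex

/-!
# The level `log n`, and the existence of the models
-/

set_option autoImplicit false
set_option linter.unusedSectionVars false

namespace Pool.Agent.Q197.BH

open Finset Filter Polynomial MeasureTheory ProbabilityTheory Pool.Agent.Q197.FM Pool.Agent.Q253.Line
open scoped Topology

theorem theta_le (n : ℕ) : ∑ p ∈ pr n, Real.log p ≤ n * Real.log 4 := by
  have h1 : ∏ p ∈ pr n, p ≤ 4 ^ n := by
    have h2 := primorial_le_four_pow n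
    unfold primorial at h2
    refine le_trans (le_of_eq ?_) h2
    refine prod_congr ?_ (fun _ _ => rfl)
    ext p
    rw [mem_pr, mem_filter, mem_range]
    constructor
    · rintro ⟨h3, h4⟩
      exact ⟨by omega, h3⟩
    · rintro ⟨h3, h4⟩
      exact ⟨h4, by omega⟩
  have h2 : ∑ p ∈ pr n, Real.log p = Real.log (∏ p ∈ pr n, (p : ℝ)) := by
    rw [Real.log_prod (fun p hp => by
      have := (mem_pr.1 hp).1.pos
      exact_mod_cast this.ne')]
  rw [h2, ← Real.log_pow]
  refine Real.log_le_log (prod_pos (fun p hp => by exact_mod_cast (mem_pr.1 hp).1.pos)) ?_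
  have h3 : ((∏ p ∈ pr n, p : ℕ) : ℝ) ≤ ((4 ^ n : ℕ) : ℝ) := Nat.cast_le.2 h1
  push_cast at h3
  exact h3

/-- Reciprocals of primes between `y` and a multiple of `y`. -/
theorem recip_le {y y' : ℕ} (hy : 2 ≤ y) : ∑ p ∈ pr y' \ pr y, 1 / (p : ℝ) ≤ y' * Real.log 4 / (y * Real.log y) := by
  have hy0 : (0 : ℝ) < y := by exact_mod_cast (show 0 < y by omega)
  have hL : 0 < Real.log (y : ℝ) := Real.log_pos (by exact_mod_cast (show 1 < y by omega))
  rw [le_div_iff₀ (by positivity), sum_mul]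
  refine le_trans ?_ (theta_le y')
  refine le_trans ?_ (sum_le_sum_of_subset_of_nonneg (s := pr y' \ pr y) Finset.sdiff_subset (fun p _ _ => Real.log_natCast_nonneg p))
  refine sum_le_sum (fun p hp => ?_)
  rw [Finset.mem_sdiff, mem_pr, mem_pr] at hp
  have h1 : y < p := by
    by_contra hcon
    push Not at hcon
    exact hp.2 ⟨hp.1.1, hcon⟩
  have h2 : (y : ℝ) ≤ p := by exact_mod_cast h1.le
  have h3 : Real.log y ≤ Real.log p := Real.log_le_log hy0 h2
  have hp0 : (0 : ℝ) < p := by linarith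
  rw [div_mul_eq_mul_div, one_mul, div_le_iff₀ hp0]
  nlinarith

theorem level_log : Level (fun n => ⌊Real.log (n : ℝ)⌋₊) := by
  have hlt : Tendsto (fun n : ℕ => Real.log (n : ℝ)) atTop atTop := Real.tendsto_log_atTop.comp tendsto_natCast_atTop_atTop
  have htop : Tendsto (fun n : ℕ => ⌊Real.log (n : ℝ)⌋₊) atTop atTop := tendsto_nat_floor_atTop.comp hlt
  refine ⟨fun a b hab => ?_, htop, fun ε hε => ?_, fun C => ?_⟩
  · refine Nat.floor_le_floor ?_
    rcases Nat.eq_zero_or_pos a with rfl | ha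
    · simp only [Nat.cast_zero, Real.log_zero]
      exact Real.log_natCast_nonneg b
    · exact Real.log_le_log (by exact_mod_cast ha) (by exact_mod_cast hab)
  · filter_upwards [log_pow_small 1 ε hε] with n hn
    rw [pow_one] at hn
    exact (Nat.floor_le (Real.log_natCast_nonneg n)).trans hn
  · have h1 : Tendsto (fun n : ℕ => 2 * C * Real.log 4 / Real.log ((⌊Real.log (n : ℝ)⌋₊ : ℕ) : ℝ)) atTop (𝓝 0) := by
      exact tendsto_const_nhds.div_atTop (Real.tendsto_log_atTop.comp (tendsto_natCast_atTop_atTop.comp htop))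
    refine squeeze_zero' (Eventually.of_forall (fun n => sum_nonneg (fun p _ => by positivity))) ?_ h1
    filter_upwards [htop.eventually_ge_atTop 2] with n hn
    obtain ⟨y, hy⟩ : ∃ y : ℕ, y = ⌊Real.log (n : ℝ)⌋₊ := ⟨_, rfl⟩
    rw [← hy] at hn ⊢
    refine (recip_le hn).trans ?_
    have hy0 : (0 : ℝ) < y := by exact_mod_cast (show 0 < y by omega)
    have hy2 : (2 : ℝ) ≤ y := by exact_mod_cast hn
    have hL : 0 < Real.log (y : ℝ) := Real.log_pos (by linarith)
    have h4 : 0 < Real.log (4 : ℝ) := Real.log_pos (by norm_num)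
    have h2 : Real.log (n : ℝ) ≤ y + 1 := by
      rw [hy]
      exact (Nat.lt_floor_add_one _).le
    have h3 : ((⌊Real.log ((n ^ C : ℕ) : ℝ)⌋₊ : ℕ) : ℝ) ≤ 2 * C * y := by
      refine (Nat.floor_le (Real.log_natCast_nonneg _)).trans ?_
      push_cast
      rw [Real.log_pow]
      have hC : (0 : ℝ) ≤ C := Nat.cast_nonneg _
      calc (C : ℝ) * Real.log n ≤ C * (y + 1) := mul_le_mul_of_nonneg_left h2 hC
        _ ≤ C * (2 * y) := mul_le_mul_of_nonneg_left (by linarith) hC
        _ = 2 * C * y := by ring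
    rw [div_le_div_iff₀ (by positivity) hL]
    calc ((⌊Real.log ((n ^ C : ℕ) : ℝ)⌋₊ : ℕ) : ℝ) * Real.log 4 * Real.log y ≤ (2 * C * y) * Real.log 4 * Real.log y := by
          gcongr
      _ = 2 * C * Real.log 4 * (y * Real.log y) := by ring

/-- The model exists for every level. -/
theorem model_exists {z : ℕ → ℕ} (hz : Level z) :
    ∃ (Ω : Type) (_ : MeasurableSpace Ω) (μ : Measure Ω) (A : Ω → Set ℕ), IsProbabilityMeasure μ ∧ Model μ A z := by
  classical
  obtain ⟨c, hc, hW⟩ := W_lower 1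
  have hle : ∀ᶠ n : ℕ in atTop, 1 / (VV (z n) * Real.log n) ≤ 1 := by
    filter_upwards [hz.small c hc, hz.top.eventually_ge_atTop 3, eventually_ge_atTop 3] with n h1 h2 h3
    have hL : 0 < Real.log (n : ℝ) := Real.log_pos (by exact_mod_cast (show 1 < n by omega))
    have hzL : 0 < Real.log (z n : ℝ) := Real.log_pos (by exact_mod_cast (show 1 < z n by omega))
    have h4 := hW (z n) h2 X nfd_X natDegree_X_le
    rw [← VV_eq, pow_one, div_le_iff₀ hzL] at h4
    have h5 : Real.log (z n : ℝ) ≤ c * Real.log n := by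
      rw [← Real.log_rpow (by exact_mod_cast (show 0 < n by omega))]
      exact Real.log_le_log (by exact_mod_cast (show 0 < z n by omega)) h1
    have hV := VV_pos (z n)
    rw [div_le_one (by positivity)]
    have h6 : c ≤ VV (z n) * (c * Real.log n) := h4.trans (mul_le_mul_of_nonneg_left h5 hV.le)
    have h7 : c * 1 ≤ c * (VV (z n) * Real.log n) := by linarith
    exact le_of_mul_le_mul_left h7 hc
  obtain ⟨P, hP⟩ : ∃ P : ℕ → ℝ, ∀ n, P n = if (∀ p : ℕ, p.Prime → p ≤ z n → ¬ p ∣ n) then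
      min 1 (1 / (VV (z n) * Real.log n)) else 0 := ⟨_, fun _ => rfl⟩
  have hP01 : ∀ n, 0 ≤ P n ∧ P n ≤ 1 := by
    intro n
    rw [hP]
    have hV := VV_pos (z n)
    have hL := Real.log_natCast_nonneg n
    split_ifs
    · exact ⟨le_min zero_le_one (by positivity), min_le_left _ _⟩
    · exact ⟨le_rfl, zero_le_one⟩
  obtain ⟨μ, hμ, A, hA, hprob⟩ := exists_indep P hP01
  refine ⟨_, _, μ, A, hμ, hA, ?_, ?_⟩
  · filter_upwards [hle] with n hn h
    rw [hprob, hP, if_pos h, min_eq_right hn]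
  · filter_upwards with n h
    rw [hprob, hP, if_neg]
    push Not
    exact h

end Pool.Agent.Q197.BH
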