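import Pool.Agent.Q197.BH.Mean2

/-!
# The asymptotic formula for all systems at once
-/

set_option autoImplicit false
set_option linter.unusedSectionVars false

namespace Pool.Agent.Q197.BH

open Finset Filter Polynomial MeasureTheory ProbabilityTheory Pool.Agent.Q197.FM Pool.Agent.Q253.Line
open scoped Topology

variable {Ω : Type*} [MeasurableSpace Ω] {μ : Measure Ω} [IsProbabilityMeasure μ] {A : Ω → Set ℕ} {z : ℕ → ℕ}

/-- The number of the `x ≤ N` with all `|f_k(x)|` in `S`. -/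
noncomputable def cntS {m : ℕ} (f : Fin m → ℤ[X]) (N : ℕ) (S : Set ℕ) : ℝ :=
  ({x : ℕ | 1 ≤ x ∧ x ≤ N ∧ ∀ k, ((f k).eval (x : ℤ)).natAbs ∈ S}.ncard : ℝ)

theorem vf_iff {m : ℕ} {f : Fin m → ℤ[X]} {x : ℕ} {S : Set ℕ} : (∀ a ∈ vf f x, a ∈ S) ↔ ∀ k, ((f k).eval (x : ℤ)).natAbs ∈ S := by
  unfold vf
  constructor
  · intro h k
    exact h _ (mem_image_of_mem _ (mem_univ k))
  · intro h a ha
    rw [mem_image] at ha
    obtain ⟨k, _, rfl⟩ := ha
    exact h k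

theorem cnt_sandwich {m : ℕ} (f : Fin m → ℤ[X]) (N : ℕ) (S : Set ℕ) :
    sc (vf f) (Gd f N) S ≤ cntS f N S ∧ cntS f N S ≤ sc (vf f) (Gd f N) S + ((Icc 1 N) \ Gd f N).card := by
  classical
  have hfin : {x : ℕ | 1 ≤ x ∧ x ≤ N ∧ ∀ k, ((f k).eval (x : ℤ)).natAbs ∈ S}.Finite :=
    (Set.finite_Iic N).subset (fun x hx => hx.2.1)
  constructor
  · unfold sc cntS
    rw [← Set.ncard_coe_finset]
    refine Nat.cast_le.2 (Set.ncard_le_ncard (fun x hx => ?_) hfin)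
    rw [mem_coe, mem_filter, vf_iff] at hx
    have h1 := (mem_Gd.1 hx.1).1
    exact ⟨h1.1, h1.2, hx.2⟩
  · unfold sc cntS
    have h1 : {x : ℕ | 1 ≤ x ∧ x ≤ N ∧ ∀ k, ((f k).eval (x : ℤ)).natAbs ∈ S}.ncard ≤
        ((Gd f N).filter (fun x => ∀ a ∈ vf f x, a ∈ S) ∪ ((Icc 1 N) \ Gd f N)).card := by
      rw [← Set.ncard_coe_finset]
      refine Set.ncard_le_ncard (fun x hx => ?_) (Finset.finite_toSet _)
      obtain ⟨h1, h2, h3⟩ := hx
      rw [mem_coe, mem_union, mem_filter, Finset.mem_sdiff, mem_Icc, vf_iff]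
      by_cases h4 : x ∈ Gd f N
      · exact Or.inl ⟨h4, h3⟩
      · exact Or.inr ⟨⟨h1, h2⟩, h4⟩
    have h2 := h1.trans (card_union_le _ _)
    exact_mod_cast h2

theorem Sys.dep {m d C N : ℕ} {f : Fin m → ℤ[X]} (h : Sys m d C N f) (x : ℕ) (Y : Finset ℕ)
    (hY : ∀ y ∈ Y, ¬ Disjoint (vf f x) (vf f y)) : Y.card ≤ m * m * (2 * d) := by
  classical
  have h5 : Y ⊆ (univ : Finset (Fin m × Fin m)).biUnion (fun ij =>
      Y.filter (fun y : ℕ => ((f ij.2).eval (y : ℤ)).natAbs = ((f ij.1).eval (x : ℤ)).natAbs)) := by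
    intro y hy
    obtain ⟨a, ha1, ha2⟩ := not_disjoint_iff.1 (hY y hy)
    unfold vf at ha1 ha2
    rw [mem_image] at ha1 ha2
    obtain ⟨i, _, hi⟩ := ha1
    obtain ⟨j, _, hj⟩ := ha2
    rw [mem_biUnion]
    exact ⟨(i, j), mem_univ _, mem_filter.2 ⟨hy, by rw [hj, hi]⟩⟩
  refine (card_le_card h5).trans (card_biUnion_le.trans ?_)
  refine (sum_le_card_nsmul _ _ (2 * d) (fun ij _ => ?_)).trans (by simp)
  exact (roots_abs_card (h.pos ij.2) ((f ij.1).eval (x : ℤ)).natAbs _ (fun y hy => (mem_filter.1 hy).2)).trans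
    (Nat.mul_le_mul_left 2 (h.le ij.2))

theorem one_system (hM : Model μ A z) (hz : Level z) (m d C : ℕ) {η : ℝ} (hη : 0 < η) (hη1 : η ≤ 1) : ∀ᶠ N : ℕ in atTop,
    ∀ f : Fin m → ℤ[X], Sys m d C N f →
      μ.real {ω | 3 * η * MT z f N < |cntS f N (A ω) - MT z f N|} ≤
        2 * ((m * m * (2 * d) : ℕ) + 1) * Real.exp (-(η ^ 2 / (8 * ((m * m * (2 * d) : ℕ) + 1) ^ 2) * (N : ℝ) ^ (3 / 4 : ℝ))) := by
  obtain ⟨Δ, hΔ⟩ : ∃ Δ : ℕ, Δ = m * m * (2 * d) := ⟨_, rfl⟩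
  filter_upwards [mean_bounds hM hz m d C hη, MT_big hz m d C (b := 1) one_pos, eventually_ge_atTop 1] with N h1 h2 h3 f hf
  obtain ⟨a1, a2, a3⟩ := h1 f hf
  have a4 := h2 f hf
  rw [← hΔ]
  obtain ⟨M, hM'⟩ : ∃ M, M = MT z f N := ⟨_, rfl⟩
  rw [← hM'] at a1 a2 a3 a4 ⊢
  have hN0 : (0 : ℝ) < N := by exact_mod_cast (show 0 < N by omega)
  have hM0 : 0 < M := by
    have : 0 < (N : ℝ) ^ (3 / 4 : ℝ) := by positivity
    linarith
  have hΔ1 : (0 : ℝ) < Δ + 1 := by positivity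
  have h4 := conc hM.elems (Gd f N) (vf f) Δ (fun x _ Y _ hY => by rw [hΔ]; exact hf.dep x Y hY) (t := η * M / (Δ + 1)) (M := 2 * M)
    (by positivity) (by positivity) (by
      rw [div_le_iff₀ hΔ1]
      have : (0 : ℝ) ≤ Δ := Nat.cast_nonneg _
      nlinarith) (by nlinarith)
  have hsub : {ω | 3 * η * M < |cntS f N (A ω) - M|} ⊆
      {ω | (Δ + 1) * (η * M / (Δ + 1)) < |sc (vf f) (Gd f N) (A ω) - ∑ i ∈ Gd f N, pw μ A (vf f i)|} := by
    intro ω hω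
    rw [Set.mem_ofPred_eq] at hω ⊢
    rw [mul_div_cancel₀ _ hΔ1.ne']
    by_contra hcon
    push Not at hcon
    obtain ⟨b1, b2⟩ := cnt_sandwich f N (A ω)
    obtain ⟨c1, c2⟩ := abs_le.1 hcon
    rw [lt_abs] at hω
    rcases hω with h | h <;> linarith
  refine (measureReal_mono hsub).trans (h4.trans ?_)
  refine mul_le_mul_of_nonneg_left ?_ (by positivity)
  rw [Real.exp_le_exp, neg_le_neg_iff]
  have e : (η * M / (Δ + 1)) ^ 2 / (4 * (2 * M)) = η ^ 2 / (8 * (Δ + 1) ^ 2) * M := by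
    field_simp
    ring
  rw [e]
  refine mul_le_mul_of_nonneg_left (by linarith) (by positivity)

/-- The polynomial with given coefficients. -/
noncomputable def pol {d : ℕ} (c : Fin (d + 1) → ℤ) : ℤ[X] := ∑ i, C (c i) * X ^ (i : ℕ)

/-- All systems. -/
noncomputable def SS (m d C N : ℕ) : Finset (Fin m → ℤ[X]) := by
  classical
  exact (Fintype.piFinset (fun _ : Fin m => Fintype.piFinset (fun _ : Fin (d + 1) => Icc (-(N : ℤ) ^ C) ((N : ℤ) ^ C)))).image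
    (fun c k => pol (c k))

theorem mem_SS {m d C N : ℕ} {f : Fin m → ℤ[X]} (h : Sys m d C N f) : f ∈ SS m d C N := by
  classical
  unfold SS
  rw [mem_image]
  refine ⟨fun k i => (f k).coeff i, ?_, ?_⟩
  · rw [Fintype.mem_piFinset]
    intro k
    rw [Fintype.mem_piFinset]
    intro i
    rw [mem_Icc]
    exact abs_le.1 (h.coef k i)
  · funext k
    unfold pol
    rw [Fin.sum_univ_eq_sum_range (fun i => Polynomial.C ((f k).coeff i) * X ^ i) (d + 1)]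
    exact ((f k).as_sum_range_C_mul_X_pow' (Nat.lt_succ_of_le (h.le k))).symm

theorem card_SS (m d C N : ℕ) : (SS m d C N).card ≤ ((2 * N ^ C + 1) ^ (d + 1)) ^ m := by
  classical
  unfold SS
  refine card_image_le.trans (le_of_eq ?_)
  rw [Fintype.card_piFinset]
  simp only [Fintype.card_piFinset, Int.card_Icc, prod_const, card_univ, Fintype.card_fin]
  congr 2
  have h : (N : ℤ) ^ C = ((N ^ C : ℕ) : ℤ) := by push_cast; rfl
  rw [h]
  omega

theorem union_small (K : ℕ) {a c : ℝ} (ha : 0 < a) (hc : 0 < c) : ∀ᶠ N : ℕ in atTop,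
    (N : ℝ) ^ K * (a * Real.exp (-(c * (N : ℝ) ^ (3 / 4 : ℝ)))) ≤ (N : ℝ) ^ (-2 : ℝ) := by
  have h1 : Tendsto (fun N : ℕ => (N : ℝ) ^ (3 / 4 : ℝ)) atTop atTop :=
    (tendsto_rpow_atTop (by norm_num)).comp tendsto_natCast_atTop_atTop
  have h2 := (isLittleO_pow_exp_pos_mul_atTop (k := 2 * (K + 2)) hc).bound (show 0 < 1 / a by positivity)
  filter_upwards [h1.eventually h2, eventually_ge_atTop 1] with N h3 h4
  have hN0 : (0 : ℝ) < N := by exact_mod_cast (show 0 < N by omega)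
  have hN1 : (1 : ℝ) ≤ N := by exact_mod_cast h4
  obtain ⟨y, hy⟩ : ∃ y : ℝ, y = (N : ℝ) ^ (3 / 4 : ℝ) := ⟨_, rfl⟩
  rw [← hy] at h3 ⊢
  have hy0 : 0 < y := by rw [hy]; positivity
  rw [Real.norm_eq_abs, Real.norm_eq_abs, abs_of_pos (by positivity), abs_of_pos (Real.exp_pos _)] at h3
  have h5 : (N : ℝ) ≤ y ^ 2 := by
    rw [hy, ← Real.rpow_natCast, ← Real.rpow_mul hN0.le]
    calc (N : ℝ) = (N : ℝ) ^ (1 : ℝ) := (Real.rpow_one _).symm
      _ ≤ _ := Real.rpow_le_rpow_of_exponent_le hN1 (by norm_num)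
  have h6 : (N : ℝ) ^ (K + 2) ≤ y ^ (2 * (K + 2)) := by
    rw [pow_mul]
    exact pow_le_pow_left₀ hN0.le h5 _
  rw [Real.exp_neg, Real.rpow_neg hN0.le, show (2 : ℝ) = ((2 : ℕ) : ℝ) by norm_num, Real.rpow_natCast]
  rw [← one_div ((N : ℝ) ^ 2), le_div_iff₀ (by positivity)]
  have h7 : (N : ℝ) ^ K * (a * (Real.exp (c * y))⁻¹) * (N : ℝ) ^ 2 = a * (N : ℝ) ^ (K + 2) / Real.exp (c * y) := by
    rw [pow_add]
    field_simp
  rw [h7, div_le_one (Real.exp_pos _)]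
  calc a * (N : ℝ) ^ (K + 2) ≤ a * y ^ (2 * (K + 2)) := mul_le_mul_of_nonneg_left h6 ha.le
    _ ≤ a * (1 / a * Real.exp (c * y)) := mul_le_mul_of_nonneg_left h3 ha.le
    _ = Real.exp (c * y) := by field_simp

theorem all_systems (hM : Model μ A z) (hz : Level z) (m d C : ℕ) {η : ℝ} (hη : 0 < η) (hη1 : η ≤ 1) :
    ∀ᵐ ω ∂μ, ∀ᶠ N : ℕ in atTop, ∀ f : Fin m → ℤ[X], Sys m d C N f →
      |cntS f N (A ω) - MT z f N| ≤ 3 * η * MT z f N := by
  classical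
  obtain ⟨Δ, hΔ⟩ : ∃ Δ : ℕ, Δ = m * m * (2 * d) := ⟨_, rfl⟩
  have h1 := one_system hM hz m d C hη hη1
  rw [← hΔ] at h1
  obtain ⟨c, hc⟩ : ∃ c : ℝ, c = η ^ 2 / (8 * ((Δ : ℝ) + 1) ^ 2) := ⟨_, rfl⟩
  have hc0 : 0 < c := by rw [hc]; positivity
  obtain ⟨E, hE⟩ : ∃ E : ℕ → Set Ω, E = fun N => ⋃ f ∈ (SS m d C N).filter (Sys m d C N),
      {ω | 3 * η * MT z f N < |cntS f N (A ω) - MT z f N|} := ⟨_, rfl⟩
  have hprob : ∀ᶠ N : ℕ in atTop, μ.real (E N) ≤ (N : ℝ) ^ (-2 : ℝ) := by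
    filter_upwards [h1, union_small (C * ((d + 1) * m)) (a := (3 : ℝ) ^ ((d + 1) * m) * (2 * (Δ + 1))) (by positivity) hc0,
      eventually_ge_atTop 1] with N h2 h3 h4
    refine le_trans ?_ h3
    rw [hE]
    refine (measureReal_biUnion_finset_le _ _).trans ?_
    refine (sum_le_card_nsmul _ _ (2 * ((Δ : ℝ) + 1) * Real.exp (-(c * (N : ℝ) ^ (3 / 4 : ℝ)))) (fun f hf => ?_)).trans ?_
    · rw [mem_filter] at hf
      have := h2 f hf.2
      rw [← hc] at this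
      exact this
    · rw [nsmul_eq_mul]
      have h5 : (((SS m d C N).filter (Sys m d C N)).card : ℝ) ≤ (3 : ℝ) ^ ((d + 1) * m) * (N : ℝ) ^ (C * ((d + 1) * m)) := by
        have h6 : ((SS m d C N).filter (Sys m d C N)).card ≤ 3 ^ ((d + 1) * m) * N ^ (C * ((d + 1) * m)) := by
          refine (card_filter_le _ _).trans ((card_SS m d C N).trans ?_)
          rw [← pow_mul]
          calc (2 * N ^ C + 1) ^ ((d + 1) * m) ≤ (3 * N ^ C) ^ ((d + 1) * m) := by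
                refine Nat.pow_le_pow_left ?_ _
                have : 1 ≤ N ^ C := Nat.one_le_pow _ _ (by omega)
                omega
            _ = _ := by rw [mul_pow, ← pow_mul]
        exact_mod_cast h6
      refine (mul_le_mul_of_nonneg_right h5 (by positivity)).trans (le_of_eq ?_)
      ring
  have hbc : ∀ᵐ ω ∂μ, ∀ᶠ n in atTop, ω ∉ E n :=
    Pool.Agent.Q197.CI.bc hprob (Real.summable_nat_rpow.2 (by norm_num))
  filter_upwards [hbc] with ω h2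
  filter_upwards [h2] with N h3 f hf
  by_contra hcon
  push Not at hcon
  apply h3
  rw [hE]
  simp only [Set.mem_iUnion]
  exact ⟨f, mem_filter.2 ⟨mem_SS hf, hf⟩, hcon⟩

/-- The asymptotic formula, uniformly for all systems. -/
theorem uniform (hM : Model μ A z) (hz : Level z) : ∀ᵐ ω ∂μ, ∀ (m d C : ℕ) (ε : ℝ), 0 < ε → ∀ᶠ N : ℕ in atTop,
    ∀ f : Fin m → ℤ[X], Sys m d C N f → |cntS f N (A ω) - MT z f N| ≤ ε * MT z f N := by
  have h : ∀ m d C j : ℕ, ∀ᵐ ω ∂μ, ∀ᶠ N : ℕ in atTop, ∀ f : Fin m → ℤ[X], Sys m d C N f →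
      |cntS f N (A ω) - MT z f N| ≤ 3 * (1 / ((j : ℝ) + 1)) * MT z f N := by
    intro m d C j
    refine all_systems hM hz m d C (by positivity) ?_
    rw [div_le_one (by positivity)]
    have : (0 : ℝ) ≤ j := Nat.cast_nonneg _
    linarith
  have h2 := ae_all_iff.2 (fun m => ae_all_iff.2 (fun d => ae_all_iff.2 (fun C => ae_all_iff.2 (fun j => h m d C j))))
  filter_upwards [h2] with ω h3 m d C ε hε
  obtain ⟨j, hj⟩ := exists_nat_one_div_lt (show 0 < ε / 3 by linarith)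
  filter_upwards [h3 m d C j, MT_big hz m d C (b := 1) one_pos] with N h4 h5 f hf
  have h6 := h5 f hf
  have h7 : 0 ≤ MT z f N := le_trans (by positivity) h6
  refine (h4 f hf).trans (mul_le_mul_of_nonneg_right ?_ h7)
  linarith

end Pool.Agent.Q197.BH
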