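import Pool.Agent.Q197.BH.Sys

/-!
# The expected number of successes
-/

set_option autoImplicit false
set_option linter.unusedSectionVars false

namespace Pool.Agent.Q197.BH

open Finset Filter Polynomial MeasureTheory ProbabilityTheory Pool.Agent.Q197.FM Pool.Agent.Q253.Line
open scoped Topology

theorem interval_count {F : ℤ[X]} {y N : ℕ} {w E : ℝ} (hw : 0 ≤ w) (hE : 0 ≤ E)
    (hc : ∀ Y : ℕ, Y ≤ N → |((rg F y Y).card : ℝ) - Y * w| ≤ E) (c r : ℝ) (hr : 0 ≤ r) (T : Finset ℕ) (hT : T ⊆ rg F y N)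
    (hTc : ∀ x ∈ T, |(x : ℝ) - c| ≤ r) : (T.card : ℝ) ≤ (2 * r + 1) * w + 2 * E := by
  classical
  rcases T.eq_empty_or_nonempty with rfl | ⟨x0, hx0⟩
  · rw [card_empty]
    push_cast
    positivity
  · obtain ⟨b, hb⟩ : ∃ b : ℕ, b = min N ⌊c + r⌋₊ := ⟨_, rfl⟩
    obtain ⟨a, ha⟩ : ∃ a : ℕ, a = ⌈c - r⌉₊ - 1 := ⟨_, rfl⟩
    have hmem : ∀ x ∈ T, a < x ∧ x ≤ b := by
      intro x hx
      have h1 := abs_le.1 (hTc x hx)
      have h2 := mem_rg.1 (hT hx)
      have h3 : ⌈c - r⌉₊ ≤ x := Nat.ceil_le.2 (by linarith)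
      have h4 : x ≤ ⌊c + r⌋₊ := Nat.le_floor (by linarith)
      omega
    obtain ⟨h1, h2⟩ := hmem x0 hx0
    have hab : a ≤ b := by omega
    have hsub : T ⊆ rg F y b \ rg F y a := by
      intro x hx
      have h3 := hmem x hx
      have h4 := mem_rg.1 (hT hx)
      rw [Finset.mem_sdiff, mem_rg, mem_rg]
      exact ⟨⟨⟨h4.1.1, h3.2⟩, h4.2⟩, fun h5 => by omega⟩
    have hsub2 : rg F y a ⊆ rg F y b := by
      intro x hx
      rw [mem_rg] at hx ⊢
      exact ⟨⟨hx.1.1, hx.1.2.trans hab⟩, hx.2⟩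
    have h3 := card_le_card hsub
    rw [card_sdiff_of_subset hsub2] at h3
    have h4 : (T.card : ℝ) ≤ (rg F y b).card - (rg F y a).card := by
      have h5 := card_le_card hsub2
      have h6 : T.card + (rg F y a).card ≤ (rg F y b).card := by omega
      have h7 : (T.card : ℝ) + (rg F y a).card ≤ (rg F y b).card := by exact_mod_cast h6
      linarith
    have h5 := (abs_le.1 (hc b (by omega))).2
    have h6 := (abs_le.1 (hc a (by omega))).1
    have hcr : 0 ≤ c + r := by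
      have h7 := abs_le.1 (hTc x0 hx0)
      have h8 : (0 : ℝ) ≤ x0 := Nat.cast_nonneg _
      linarith
    have h7 : (b : ℝ) ≤ c + r := by
      have h8 : (b : ℝ) ≤ (⌊c + r⌋₊ : ℕ) := by exact_mod_cast (show b ≤ ⌊c + r⌋₊ by omega)
      exact h8.trans (Nat.floor_le hcr)
    have h8 : c - r - 1 ≤ (a : ℝ) := by
      have h9 := Nat.le_ceil (c - r)
      have h10 : ((⌈c - r⌉₊ : ℕ) : ℝ) ≤ a + 1 := by exact_mod_cast (show ⌈c - r⌉₊ ≤ a + 1 by omega)
      linarith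
    have h9 : ((b : ℝ) - a) * w ≤ (2 * r + 1) * w := mul_le_mul_of_nonneg_right (by linarith) hw
    nlinarith

/-- The factor in the upper bound. -/
noncomputable def Phi (m d C1 : ℕ) (ε : ℝ) : ℝ :=
  (1 / (1 - ε) + ε) * (1 / (1 - ε)) ^ (2 * m) + m * d * (3 * ε * (1 / (1 - ε)) + 2 * ε) * (C1 * (1 / (1 - ε))) ^ m

theorem Phi_small (m d C1 : ℕ) {η : ℝ} (hη : 0 < η) : ∃ ε : ℝ, 0 < ε ∧ ε ≤ 1 / 2 ∧ Phi m d C1 ε ≤ 1 + η ∧
    1 - η ≤ (1 - 3 * ε) * (1 - ε) ^ m := by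
  have h1 : ContinuousAt (Phi m d C1) 0 := by
    unfold Phi
    have h2 : ContinuousAt (fun ε : ℝ => 1 / (1 - ε)) 0 := by
      refine ContinuousAt.div continuousAt_const (by fun_prop) (by norm_num)
    fun_prop
  have h2 : ContinuousAt (fun ε : ℝ => (1 - 3 * ε) * (1 - ε) ^ m) 0 := by fun_prop
  have e1 : Phi m d C1 0 = 1 := by
    unfold Phi
    norm_num
  have h3 : ∀ᶠ ε : ℝ in 𝓝 0, Phi m d C1 ε < 1 + η := by
    have := h1.eventually_lt_const (show Phi m d C1 0 < 1 + η by rw [e1]; linarith)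
    exact this
  have h4 : ∀ᶠ ε : ℝ in 𝓝 0, 1 - η < (1 - 3 * ε) * (1 - ε) ^ m := by
    refine h2.eventually_const_lt ?_
    norm_num
    exact hη
  have h5 : ∀ᶠ ε : ℝ in 𝓝 0, ε < 1 / 2 := eventually_lt_nhds (by norm_num)
  obtain ⟨ε, ⟨⟨h6, h7⟩, h8⟩, h9⟩ := (((h3.and h4).and h5).filter_mono nhdsWithin_le_nhds).and
    (self_mem_nhdsWithin (s := Set.Ioi (0 : ℝ)) (a := 0)) |>.exists
  exact ⟨ε, h9, h8.le, h6.le, h7.le⟩

/-- The main term. -/
noncomputable def MT (z : ℕ → ℕ) {m : ℕ} (f : Fin m → ℤ[X]) (N : ℕ) : ℝ :=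
  W (∏ k, f k) (z N) / VV (z N) ^ m * (N / ∏ k, Real.log (mx (f k) N))

variable {m d C : ℕ} {Ω : Type*} [MeasurableSpace Ω] {μ : Measure Ω} [IsProbabilityMeasure μ] {A : Ω → Set ℕ} {z : ℕ → ℕ}

theorem MT_big (hz : Level z) (m d C : ℕ) {b : ℝ} (hb : 0 < b) : ∀ᶠ N : ℕ in atTop, ∀ f : Fin m → ℤ[X], Sys m d C N f →
    b * (N : ℝ) ^ (3 / 4 : ℝ) ≤ MT z f N := by
  obtain ⟨C1, hC1⟩ : ∃ C1 : ℕ, C1 = 4 * (C + d + 1) := ⟨_, rfl⟩
  have hC10 : (0 : ℝ) < C1 := by rw [hC1]; positivity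
  filter_upwards [W_big (m * d) (b := b * (C1 : ℝ) ^ m) (by positivity) m, eventually_ge_atTop (d + 10), hz.small 1 one_pos,
    sqrt_mul_le (2 * d), sqrt_top.eventually_ge_atTop 2] with N h1 h2 h3 h4 h5 f hf
  have hN0 : (0 : ℝ) < N := by exact_mod_cast (show 0 < N by omega)
  have hL : 0 < Real.log (N : ℝ) := Real.log_pos (by exact_mod_cast (show 1 < N by omega))
  have hzN : z N ≤ N := by
    rw [Real.rpow_one] at h3
    exact_mod_cast h3
  have h6 := h1 _ hf.nfd hf.deg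
  have h7 : (N : ℝ) * W (∏ k, f k) N ≤ N * W (∏ k, f k) (z N) := mul_le_mul_of_nonneg_left (W_anti hf.nfd hzN) hN0.le
  have hlog : ∀ k, 0 < Real.log (mx (f k) N) ∧ Real.log (mx (f k) N) ≤ C1 * Real.log N := by
    intro k
    have h8 := hf.le_mx' h4 k
    have h9 := hf.mx_le (by omega) (by omega) k
    have h10 : (0 : ℝ) < mx (f k) N := by exact_mod_cast (show 0 < mx (f k) N by omega)
    refine ⟨Real.log_pos (by exact_mod_cast (show 1 < mx (f k) N by omega)), ?_⟩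
    have h11 : (mx (f k) N : ℝ) ≤ (N : ℝ) ^ C1 := by
      have h12 : mx (f k) N ≤ N ^ C1 := by
        rw [hC1]
        exact h9.trans (Nat.pow_le_pow_left (Nat.sqrt_le_self N) _)
      exact_mod_cast h12
    calc Real.log (mx (f k) N) ≤ Real.log ((N : ℝ) ^ C1) := Real.log_le_log h10 h11
      _ = C1 * Real.log N := Real.log_pow _ _
  have hprod0 : 0 < ∏ k, Real.log (mx (f k) N) := prod_pos (fun k _ => (hlog k).1)
  have hprod : ∏ k, Real.log (mx (f k) N) ≤ (C1 * Real.log N) ^ m := by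
    calc ∏ k, Real.log (mx (f k) N) ≤ ∏ _k : Fin m, (C1 * Real.log N) := prod_le_prod (fun k _ => (hlog k).1.le) (fun k _ => (hlog k).2)
      _ = (C1 * Real.log N) ^ m := by rw [prod_const, card_univ, Fintype.card_fin]
  have hV : VV (z N) ^ m ≤ 1 := pow_le_one₀ (VV_pos _).le (VV_le_one _)
  have hV0 : 0 < VV (z N) ^ m := pow_pos (VV_pos _) m
  have hW0 := W_pos hf.nfd (z N)
  unfold MT
  have h8 : b * (N : ℝ) ^ (3 / 4 : ℝ) * ∏ k, Real.log (mx (f k) N) ≤ N * W (∏ k, f k) (z N) := by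
    calc b * (N : ℝ) ^ (3 / 4 : ℝ) * ∏ k, Real.log (mx (f k) N) ≤ b * (N : ℝ) ^ (3 / 4 : ℝ) * (C1 * Real.log N) ^ m :=
          mul_le_mul_of_nonneg_left hprod (by positivity)
      _ = b * (C1 : ℝ) ^ m * (N : ℝ) ^ (3 / 4 : ℝ) * Real.log N ^ m := by rw [mul_pow]; ring
      _ ≤ _ := h6.trans h7
  have h9 : W (∏ k, f k) (z N) ≤ W (∏ k, f k) (z N) / VV (z N) ^ m := by
    rw [le_div_iff₀ hV0]
    nlinarith
  calc b * (N : ℝ) ^ (3 / 4 : ℝ) ≤ W (∏ k, f k) (z N) * (N / ∏ k, Real.log (mx (f k) N)) := by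
        rw [mul_div_assoc', le_div_iff₀ hprod0]
        linarith
    _ ≤ _ := mul_le_mul_of_nonneg_right h9 (by positivity)

theorem W_big' (κ : ℕ) {b e : ℝ} (hb : 0 < b) (he : 0 < e) (he1 : e ≤ 1 / 2) (D : ℕ) : ∀ᶠ N : ℕ in atTop, ∀ F : ℤ[X], NFD F →
    F.natDegree ≤ κ → b * (N : ℝ) ^ (1 - e) * Real.log N ^ D ≤ N * W F N := by
  obtain ⟨c, hc, h⟩ := W_lower κ
  filter_upwards [main_size (κ + D) (a := 1) (b := c / b) (ε := e) (by norm_num) (by positivity) he he1,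
    eventually_ge_atTop 3] with N h1 h2 F hF hd
  have h3 := h N h2 F hF hd
  have hN0 : (0 : ℝ) < N := by exact_mod_cast (show 0 < N by omega)
  have hL : 0 < Real.log (N : ℝ) := Real.log_pos (by exact_mod_cast (show 1 < N by omega))
  rw [one_mul] at h1
  have h4 : (N : ℝ) ^ (1 - e) ≤ c / b * (N / Real.log N ^ (κ + D)) := by linarith
  calc b * (N : ℝ) ^ (1 - e) * Real.log N ^ D ≤ b * (c / b * (N / Real.log N ^ (κ + D))) * Real.log N ^ D := by
        gcongr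
    _ = N * (c / Real.log N ^ κ) := by
        rw [pow_add]
        field_simp
    _ ≤ N * W F N := mul_le_mul_of_nonneg_left h3 hN0.le

theorem MT_lower (hz : Level z) (m d C : ℕ) {b e : ℝ} (hb : 0 < b) (he : 0 < e) : ∀ᶠ N : ℕ in atTop,
    ∀ f : Fin m → ℤ[X], Sys m d C N f → b * (N : ℝ) ^ (1 - e) ≤ MT z f N := by
  obtain ⟨C1, hC1⟩ : ∃ C1 : ℕ, C1 = 4 * (C + d + 1) := ⟨_, rfl⟩
  have hC10 : (0 : ℝ) < C1 := by rw [hC1]; positivity
  filter_upwards [W_big' (m * d) (b := b * (C1 : ℝ) ^ m) (e := min e (1 / 2)) (by positivity) (lt_min he (by norm_num))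
    (min_le_right _ _) m, eventually_ge_atTop (d + 10), hz.small 1 one_pos,
    sqrt_mul_le (2 * d), sqrt_top.eventually_ge_atTop 2] with N h1 h2 h3 h4 h5 f hf
  have hN0 : (0 : ℝ) < N := by exact_mod_cast (show 0 < N by omega)
  have hN1 : (1 : ℝ) ≤ N := by exact_mod_cast (show 1 ≤ N by omega)
  have hL : 0 < Real.log (N : ℝ) := Real.log_pos (by exact_mod_cast (show 1 < N by omega))
  have hzN : z N ≤ N := by
    rw [Real.rpow_one] at h3
    exact_mod_cast h3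
  have h6 := h1 _ hf.nfd hf.deg
  have h7 : (N : ℝ) * W (∏ k, f k) N ≤ N * W (∏ k, f k) (z N) := mul_le_mul_of_nonneg_left (W_anti hf.nfd hzN) hN0.le
  have hlog : ∀ k, 0 < Real.log (mx (f k) N) ∧ Real.log (mx (f k) N) ≤ C1 * Real.log N := by
    intro k
    have h8 := hf.le_mx' h4 k
    have h9 := hf.mx_le (by omega) (by omega) k
    have h10 : (0 : ℝ) < mx (f k) N := by exact_mod_cast (show 0 < mx (f k) N by omega)
    refine ⟨Real.log_pos (by exact_mod_cast (show 1 < mx (f k) N by omega)), ?_⟩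
    have h11 : (mx (f k) N : ℝ) ≤ (N : ℝ) ^ C1 := by
      have h12 : mx (f k) N ≤ N ^ C1 := by
        rw [hC1]
        exact h9.trans (Nat.pow_le_pow_left (Nat.sqrt_le_self N) _)
      exact_mod_cast h12
    calc Real.log (mx (f k) N) ≤ Real.log ((N : ℝ) ^ C1) := Real.log_le_log h10 h11
      _ = C1 * Real.log N := Real.log_pow _ _
  have hprod0 : 0 < ∏ k, Real.log (mx (f k) N) := prod_pos (fun k _ => (hlog k).1)
  have hprod : ∏ k, Real.log (mx (f k) N) ≤ (C1 * Real.log N) ^ m := by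
    calc ∏ k, Real.log (mx (f k) N) ≤ ∏ _k : Fin m, (C1 * Real.log N) := prod_le_prod (fun k _ => (hlog k).1.le) (fun k _ => (hlog k).2)
      _ = (C1 * Real.log N) ^ m := by rw [prod_const, card_univ, Fintype.card_fin]
  have hV : VV (z N) ^ m ≤ 1 := pow_le_one₀ (VV_pos _).le (VV_le_one _)
  have hV0 : 0 < VV (z N) ^ m := pow_pos (VV_pos _) m
  have hW0 := W_pos hf.nfd (z N)
  unfold MT
  have hpw : (N : ℝ) ^ (1 - e) ≤ (N : ℝ) ^ (1 - min e (1 / 2)) :=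
    Real.rpow_le_rpow_of_exponent_le hN1 (by have := min_le_left e (1 / 2); linarith)
  have h8 : b * (N : ℝ) ^ (1 - e) * ∏ k, Real.log (mx (f k) N) ≤ N * W (∏ k, f k) (z N) := by
    calc b * (N : ℝ) ^ (1 - e) * ∏ k, Real.log (mx (f k) N) ≤ b * (N : ℝ) ^ (1 - min e (1 / 2)) * (C1 * Real.log N) ^ m :=
          mul_le_mul (mul_le_mul_of_nonneg_left hpw hb.le) hprod hprod0.le (by positivity)
      _ = b * (C1 : ℝ) ^ m * (N : ℝ) ^ (1 - min e (1 / 2)) * Real.log N ^ m := by rw [mul_pow]; ring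
      _ ≤ _ := h6.trans h7
  have h9 : W (∏ k, f k) (z N) ≤ W (∏ k, f k) (z N) / VV (z N) ^ m := by
    rw [le_div_iff₀ hV0]
    nlinarith
  calc b * (N : ℝ) ^ (1 - e) ≤ W (∏ k, f k) (z N) * (N / ∏ k, Real.log (mx (f k) N)) := by
        rw [mul_div_assoc', le_div_iff₀ hprod0]
        linarith
    _ ≤ _ := mul_le_mul_of_nonneg_right h9 (by positivity)

end Pool.Agent.Q197.BH
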