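import Pool.Agent.Q197.BH.Mean

/-!
# The expected number of successes is asymptotic to the main term, uniformly
-/

set_option autoImplicit false
set_option linter.unusedSectionVars false

namespace Pool.Agent.Q197.BH

open Finset Filter Polynomial MeasureTheory ProbabilityTheory Pool.Agent.Q197.FM Pool.Agent.Q253.Line
open scoped Topology

variable {Ω : Type*} [MeasurableSpace Ω] {μ : Measure Ω} [IsProbabilityMeasure μ] {A : Ω → Set ℕ} {z : ℕ → ℕ}

theorem prod_le_const {m : ℕ} {g l : Fin m → ℝ} {B : ℝ} (h0 : ∀ k, 0 ≤ g k) (h : ∀ k, g k ≤ B * (1 / l k)) :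
    ∏ k, g k ≤ B ^ m / ∏ k, l k := by
  refine (prod_le_prod (fun k _ => h0 k) (fun k _ => h k)).trans (le_of_eq ?_)
  rw [prod_mul_distrib, prod_const, card_univ, Fintype.card_fin, prod_div_distrib, prod_const_one, mul_one_div]

theorem const_le_prod {m : ℕ} {g l : Fin m → ℝ} {B : ℝ} (hB : 0 ≤ B) (hl : ∀ k, 0 < l k) (h : ∀ k, B * (1 / l k) ≤ g k) :
    B ^ m / ∏ k, l k ≤ ∏ k, g k := by
  refine le_trans (le_of_eq ?_) (prod_le_prod (fun k _ => ?_) (fun k _ => h k))
  · rw [prod_mul_distrib, prod_const, card_univ, Fintype.card_fin, prod_div_distrib, prod_const_one, mul_one_div]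
  · have := hl k
    positivity

theorem mean_bounds (hM : Model μ A z) (hz : Level z) (m d C : ℕ) {η : ℝ} (hη : 0 < η) : ∀ᶠ N : ℕ in atTop,
    ∀ f : Fin m → ℤ[X], Sys m d C N f →
      (1 - η) * MT z f N ≤ ∑ x ∈ Gd f N, pw μ A (vf f x) ∧
      ∑ x ∈ Gd f N, pw μ A (vf f x) ≤ (1 + η) * MT z f N ∧
      (((Icc 1 N) \ Gd f N).card : ℝ) ≤ η * MT z f N := by
  classical
  obtain ⟨C1, hC1⟩ : ∃ C1 : ℕ, C1 = 4 * (C + d + 1) := ⟨_, rfl⟩
  obtain ⟨ε, hε, hε2, hΦ, hlow⟩ := Phi_small m d C1 hη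
  have hε1 : 0 < 1 - ε := by linarith
  obtain ⟨b0, hb0⟩ : ∃ b0 : ℝ, b0 = 4 * m * d + 2 * d * m * m + 1 := ⟨_, rfl⟩
  have hb0' : 0 < b0 := by rw [hb0]; positivity
  have hlogs : ∀ᶠ N : ℕ in atTop, d * Real.log (2 / ε) ≤ ε * Real.log (Nat.sqrt N) := by
    have h1 : Tendsto (fun N : ℕ => Real.log (Nat.sqrt N)) atTop atTop :=
      Real.tendsto_log_atTop.comp (tendsto_natCast_atTop_atTop.comp sqrt_top)
    filter_upwards [h1.eventually_ge_atTop (d * Real.log (2 / ε) / ε)] with N h2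
    rw [div_le_iff₀ hε] at h2
    linarith
  filter_upwards [count_main hz (m * d) C1 hε, sqrt_top.eventually (W_close hz (m * d) C1 hε),
    sqrt_top.eventually (W_close hz 1 C1 hε), sqrt_top.eventually (hM.prob hz C1), eventually_ge_atTop (d + 10),
    sqrt_mul_le (2 * d), MT_big hz m d C (b := b0 / η) (by positivity), W_big (m * d) (b := b0 / ε) (by positivity) 0,
    (tendsto_natCast_atTop_atTop (R := ℝ)).eventually_ge_atTop (1 / ε), hlogs, sqrt_top.eventually_ge_atTop 2,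
    hz.small 1 one_pos] with N a1 a2 a3 a4 a5 a6 a7 a8 a9 a10 a11 a12 f hf
  obtain ⟨n, hn⟩ : ∃ n, n = Nat.sqrt N := ⟨_, rfl⟩
  obtain ⟨F, hF⟩ : ∃ F : ℤ[X], F = ∏ k, f k := ⟨_, rfl⟩
  rw [← hn] at a1 a2 a3 a4 a6 a10 a11
  have hN0 : (0 : ℝ) < N := by exact_mod_cast (show 0 < N by omega)
  have hnN : n ≤ N := by rw [hn]; exact Nat.sqrt_le_self N
  have hNn : N ≤ n ^ C1 := by
    rw [hn]
    exact (lt_sqrt_pow (show 9 ≤ N by omega)).trans (Nat.pow_le_pow_right (by omega) (by omega))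
  have hz1 : z n ≤ z N := hz.mono hnN
  have hz2 : z N ≤ z (n ^ C1) := hz.mono hNn
  have hNFD : NFD F := by rw [hF]; exact hf.nfd
  have hdeg : F.natDegree ≤ m * d := by rw [hF]; exact hf.deg
  -- the densities
  obtain ⟨W0, hW0⟩ : ∃ w, w = W F (z N) := ⟨_, rfl⟩
  obtain ⟨W1, hW1⟩ : ∃ w, w = W F (z n) := ⟨_, rfl⟩
  obtain ⟨W2, hW2⟩ : ∃ w, w = W F (z (n ^ C1)) := ⟨_, rfl⟩
  obtain ⟨V0, hV0⟩ : ∃ w, w = VV (z N) := ⟨_, rfl⟩
  obtain ⟨V1, hV1⟩ : ∃ w, w = VV (z n) := ⟨_, rfl⟩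
  obtain ⟨V2, hV2⟩ : ∃ w, w = VV (z (n ^ C1)) := ⟨_, rfl⟩
  have w0 : 0 < W0 := by rw [hW0]; exact W_pos hNFD _
  have w01 : (1 - ε) * W1 ≤ W0 := by rw [hW1, hW0]; exact a2 F hNFD hdeg _ _ le_rfl hz1 hz2
  have w01' : W0 ≤ W1 := by rw [hW1, hW0]; exact W_anti hNFD hz1
  have w12 : (1 - ε) * W1 ≤ W2 := by rw [hW1, hW2]; exact a2 F hNFD hdeg _ _ le_rfl (hz1.trans hz2) le_rfl
  have v0 : 0 < V0 := by rw [hV0]; exact VV_pos _
  have v1 : 0 < V1 := by rw [hV1]; exact VV_pos _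
  have v2 : 0 < V2 := by rw [hV2]; exact VV_pos _
  have v12 : (1 - ε) * V1 ≤ V2 := by
    rw [hV1, hV2, VV_eq, VV_eq]
    exact a3 X nfd_X natDegree_X_le _ _ le_rfl (hz1.trans hz2) le_rfl
  have v01 : V0 ≤ V1 := by rw [hV0, hV1]; exact VV_anti hz1
  have v02 : V2 ≤ V0 := by rw [hV0, hV2]; exact VV_anti hz2
  obtain ⟨q, hq⟩ : ∃ q : ℝ, q = 1 / (1 - ε) := ⟨_, rfl⟩
  have hq0 : 0 < q := by rw [hq]; positivity
  have hqe : q * (1 - ε) = 1 := by rw [hq]; field_simp
  have w1q : W1 ≤ q * W0 := by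
    calc W1 = q * ((1 - ε) * W1) := by rw [← mul_assoc, hqe, one_mul]
      _ ≤ q * W0 := mul_le_mul_of_nonneg_left w01 hq0.le
  have v2q : 1 / V2 ≤ q / V0 := by
    rw [div_le_div_iff₀ v2 v0, one_mul]
    calc V0 ≤ V1 := v01
      _ = q * ((1 - ε) * V1) := by rw [← mul_assoc, hqe, one_mul]
      _ ≤ q * V2 := mul_le_mul_of_nonneg_left v12 hq0.le
  have v1q : (1 - ε) / V0 ≤ 1 / V1 := by
    rw [div_le_div_iff₀ v0 v1, one_mul]
    exact v12.trans v02
  -- the sizes
  have hmx : ∀ k, n ≤ mx (f k) N ∧ mx (f k) N ≤ n ^ C1 := by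
    intro k
    rw [hn, hC1]
    exact ⟨hf.le_mx' (by rw [← hn]; exact a6) k, hf.mx_le (by omega) (by omega) k⟩
  have hn2 : (1 : ℝ) < n := by exact_mod_cast (show 1 < n by omega)
  have hlogn : 0 < Real.log (n : ℝ) := Real.log_pos hn2
  have hl : ∀ k, Real.log n ≤ Real.log (mx (f k) N) ∧ Real.log (mx (f k) N) ≤ C1 * Real.log n := by
    intro k
    obtain ⟨h1, h2⟩ := hmx k
    have h3 : (0 : ℝ) < mx (f k) N := by exact_mod_cast (show 0 < mx (f k) N by omega)
    refine ⟨Real.log_le_log (by linarith) (by exact_mod_cast h1), ?_⟩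
    rw [← Real.log_pow]
    exact Real.log_le_log h3 (by exact_mod_cast h2)
  obtain ⟨l, hld⟩ : ∃ l : Fin m → ℝ, ∀ k, l k = Real.log (mx (f k) N) := ⟨_, fun _ => rfl⟩
  simp only [← hld] at hl
  have hl0 : ∀ k, 0 < l k := fun k => hlogn.trans_le (hl k).1
  have hL0 : 0 < ∏ k, l k := prod_pos (fun k _ => hl0 k)
  have hMT : MT z f N = W0 / V0 ^ m * (N / ∏ k, l k) := by
    unfold MT
    simp only [← hld]
    rw [← hF, ← hW0, ← hV0]
  obtain ⟨v, hv⟩ : ∃ v : Fin m → ℕ → ℕ, ∀ k x, v k x = ((f k).eval (x : ℤ)).natAbs := ⟨_, fun _ _ => rfl⟩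
  have hvG : ∀ x ∈ Gd f N, ∀ k, n ≤ v k x ∧ v k x ≤ n ^ C1 ∧ v k x ≤ mx (f k) N := by
    intro x hx k
    rw [mem_Gd] at hx
    rw [hv]
    refine ⟨by rw [hn]; exact hx.2.1 k, ?_, le_mx (f k) hx.1.1 hx.1.2⟩
    rw [hn, hC1]
    exact hf.val (by omega) (by omega) k hx.1.2
  have hpwG : ∀ x ∈ Gd f N, pw μ A (vf f x) = ∏ k, μ.real {ω | v k x ∈ A ω} := by
    intro x hx
    rw [mem_Gd] at hx
    simp only [hv]
    exact pw_eq hx.2.2
  have hcnt1 : ∀ Y : ℕ, Y ≤ N → |((rg F (z n) Y).card : ℝ) - Y * W1| ≤ ε * (N * W0) := by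
    rw [hW1, hW0]
    exact a1 F hNFD hdeg (z n) le_rfl (hz1.trans hz2)
  have hcnt2 : ∀ Y : ℕ, Y ≤ N → |((rg F (z (n ^ C1)) Y).card : ℝ) - Y * W2| ≤ ε * (N * W0) := by
    rw [hW2, hW0]
    exact a1 F hNFD hdeg (z (n ^ C1)) (hz1.trans hz2) le_rfl
  -- the bad numbers
  have hbad : (((Icc 1 N) \ Gd f N).card : ℝ) ≤ b0 * (N : ℝ) ^ (3 / 4 : ℝ) := by
    have h1 : (((Icc 1 N) \ Gd f N).card : ℝ) ≤ m * ((n + 1) * (2 * d)) + m * m * (2 * d) := by
      rw [hn]
      exact_mod_cast hf.bad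
    have h2 : (n : ℝ) ≤ (N : ℝ) ^ (3 / 4 : ℝ) := by
      have h3 : (n : ℝ) ≤ √(N : ℝ) := by
        rw [Real.le_sqrt' (by linarith)]
        have h4 := Nat.sqrt_le' N
        rw [← hn] at h4
        exact_mod_cast h4
      refine h3.trans ?_
      rw [Real.sqrt_eq_rpow]
      exact Real.rpow_le_rpow_of_exponent_le (by exact_mod_cast (show 1 ≤ N by omega)) (by norm_num)
    have h3 : (1 : ℝ) ≤ (N : ℝ) ^ (3 / 4 : ℝ) := hn2.le.trans h2
    have hmd : (0 : ℝ) ≤ m * d := by positivity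
    have hmmd : (0 : ℝ) ≤ d * m * m := by positivity
    refine h1.trans ?_
    rw [hb0]
    nlinarith
  have hbad1 : (((Icc 1 N) \ Gd f N).card : ℝ) ≤ η * MT z f N := by
    have h1 := a7 f hf
    rw [div_mul_eq_mul_div, div_le_iff₀ hη] at h1
    linarith
  have hbad2 : (((Icc 1 N) \ Gd f N).card : ℝ) ≤ ε * (N * W0) := by
    have h1 := a8 F hNFD hdeg
    rw [pow_zero, mul_one, div_mul_eq_mul_div, div_le_iff₀ hε] at h1
    have h2 : W F N ≤ W0 := by
      rw [hW0]
      refine W_anti hNFD ?_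
      rw [Real.rpow_one] at a12
      exact_mod_cast a12
    have h3 : (N : ℝ) * W F N ≤ N * W0 := mul_le_mul_of_nonneg_left h2 hN0.le
    nlinarith
  refine ⟨?_, ?_, hbad1⟩
  · -- lower bound
    obtain ⟨T, hT⟩ : ∃ T : Finset ℕ, T = rg F (z (n ^ C1)) N ∩ Gd f N := ⟨_, rfl⟩
    have hTc : (1 - 3 * ε) * (N * W0) ≤ T.card := by
      have h1 : rg F (z (n ^ C1)) N ⊆ T ∪ ((Icc 1 N) \ Gd f N) := by
        intro x hx
        have h2 := mem_rg.1 hx
        rw [hT, mem_union, mem_inter, Finset.mem_sdiff, mem_Icc]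
        by_cases h3 : x ∈ Gd f N
        · exact Or.inl ⟨hx, h3⟩
        · exact Or.inr ⟨h2.1, h3⟩
      have h2 : ((rg F (z (n ^ C1)) N).card : ℝ) ≤ T.card + (((Icc 1 N) \ Gd f N).card : ℝ) := by
        exact_mod_cast (card_le_card h1).trans (card_union_le _ _)
      have h3 := (abs_le.1 (hcnt2 N le_rfl)).1
      have h4 : (1 - ε) * W0 ≤ W2 := (mul_le_mul_of_nonneg_left w01' hε1.le).trans w12
      have h5 : (N : ℝ) * ((1 - ε) * W0) ≤ N * W2 := mul_le_mul_of_nonneg_left h4 hN0.le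
      linarith
    have hTB : ∀ x ∈ T, ((1 - ε) / V0) ^ m / ∏ k, l k ≤ pw μ A (vf f x) := by
      intro x hx
      rw [hT, mem_inter] at hx
      rw [hpwG x hx.2]
      refine const_le_prod (by positivity) hl0 (fun k => ?_)
      obtain ⟨h1, h2, h3⟩ := hvG x hx.2 k
      have h4 := (a4 (v k x) h1 h2).2.2 (fun p hp hpz hpv => (mem_rg.1 hx.1).2 p hp hpz (by
        rw [hF, hf.dvd_iff hp]
        rw [hv] at hpv
        exact ⟨k, hpv⟩))
      refine le_trans ?_ h4
      rw [← hV1]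
      have h5 : (1 : ℝ) < v k x := hn2.trans_le (by exact_mod_cast h1)
      have h6 : 0 < Real.log (v k x : ℝ) := Real.log_pos h5
      have h7 : Real.log (v k x : ℝ) ≤ l k := by
        rw [hld]
        exact Real.log_le_log (by linarith) (by exact_mod_cast h3)
      calc (1 - ε) / V0 * (1 / l k) ≤ 1 / V1 * (1 / l k) := mul_le_mul_of_nonneg_right v1q (by
            have := hl0 k
            positivity)
        _ ≤ 1 / V1 * (1 / Real.log (v k x : ℝ)) := mul_le_mul_of_nonneg_left (one_div_le_one_div_of_le h6 h7) (by positivity)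
        _ = 1 / (V1 * Real.log (v k x : ℝ)) := by
          rw [one_div_mul_one_div]
    have h1 : (T.card : ℝ) * (((1 - ε) / V0) ^ m / ∏ k, l k) ≤ ∑ x ∈ Gd f N, pw μ A (vf f x) := by
      refine le_trans ?_ (sum_le_sum_of_subset_of_nonneg (show T ⊆ Gd f N by rw [hT]; exact inter_subset_right)
        (fun x _ _ => pw_nonneg _))
      rw [← nsmul_eq_mul]
      exact card_nsmul_le_sum _ _ _ hTB
    refine le_trans ?_ h1
    have h2 : 0 ≤ ((1 - ε) / V0) ^ m / ∏ k, l k := by positivity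
    refine le_trans ?_ (mul_le_mul_of_nonneg_right hTc h2)
    rw [hMT]
    have h3 : (1 - 3 * ε) * (N * W0) * (((1 - ε) / V0) ^ m / ∏ k, l k) =
        ((1 - 3 * ε) * (1 - ε) ^ m) * (W0 / V0 ^ m * (N / ∏ k, l k)) := by
      rw [div_pow]
      field_simp
    rw [h3]
    exact mul_le_mul_of_nonneg_right hlow (by positivity)
  · -- upper bound
    choose Ck hCk1 hCk2 using fun k => near_roots (f k) (hf.le k) hε (show ε ≤ 1 by linarith) N
    obtain ⟨Bad, hBad⟩ : ∃ Bad : ℕ → Prop, ∀ x, Bad x ↔ ∃ k, ∃ c ∈ Ck k, |(x : ℝ) - c| ≤ ε * N := ⟨_, fun _ => Iff.rfl⟩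
    obtain ⟨B1, hB1⟩ : ∃ B1 : ℝ, B1 = (C1 * (q / V0)) ^ m / ∏ k, l k := ⟨_, rfl⟩
    obtain ⟨B2, hB2⟩ : ∃ B2 : ℝ, B2 = (q * (q / V0)) ^ m / ∏ k, l k := ⟨_, rfl⟩
    have hB10 : 0 ≤ B1 := by rw [hB1]; positivity
    have hB20 : 0 ≤ B2 := by rw [hB2]; positivity
    have hx : ∀ x ∈ Gd f N, pw μ A (vf f x) ≤ if x ∈ rg F (z n) N then (B2 + if Bad x then B1 else 0) else 0 := by
      intro x hx
      rw [hpwG x hx]
      have hvk : ∀ k, 0 < Real.log (v k x : ℝ) ∧ Real.log n ≤ Real.log (v k x : ℝ) := by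
        intro k
        have h5 : (n : ℝ) ≤ v k x := by exact_mod_cast (hvG x hx k).1
        exact ⟨Real.log_pos (hn2.trans_le h5), Real.log_le_log (by linarith) h5⟩
      by_cases h1 : x ∈ rg F (z n) N
      · rw [if_pos h1]
        have hP : ∀ k, μ.real {ω | v k x ∈ A ω} ≤ q / V0 * (1 / Real.log (v k x : ℝ)) := by
          intro k
          obtain ⟨h2, h3, _⟩ := hvG x hx k
          refine (a4 (v k x) h2 h3).1.trans ?_
          rw [← hV2, ← one_div_mul_one_div]
          exact mul_le_mul_of_nonneg_right v2q (by have := (hvk k).1; positivity)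
        by_cases h2 : Bad x
        · rw [if_pos h2]
          have h3 : ∏ k, μ.real {ω | v k x ∈ A ω} ≤ B1 := by
            rw [hB1]
            refine prod_le_const (fun k => measureReal_nonneg) (fun k => (hP k).trans ?_)
            have h4 : 1 / Real.log (v k x : ℝ) ≤ C1 * (1 / l k) := by
              have h5 := (hl k).2
              have h6 := hvk k
              have h7 := hl0 k
              rw [mul_one_div, div_le_div_iff₀ h6.1 h7]
              have h8 : (0 : ℝ) ≤ C1 := Nat.cast_nonneg _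
              nlinarith
            calc q / V0 * (1 / Real.log (v k x : ℝ)) ≤ q / V0 * (C1 * (1 / l k)) := mul_le_mul_of_nonneg_left h4 (by positivity)
              _ = C1 * (q / V0) * (1 / l k) := by ring
          linarith
        · rw [if_neg h2, add_zero, hB2]
          refine prod_le_const (fun k => measureReal_nonneg) (fun k => (hP k).trans ?_)
          have h3 : ∀ c ∈ Ck k, ε * N < |(x : ℝ) - c| := by
            intro c hc
            by_contra hcon
            push Not at hcon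
            exact h2 ((hBad x).2 ⟨k, c, hc, hcon⟩)
          have hxG := mem_Gd.1 hx
          have h4 := hCk2 k x hxG.1.1 hxG.1.2 h3
          rw [← hv] at h4
          have h5 : (1 - ε) * l k ≤ Real.log (v k x : ℝ) := by
            have h6 : (0 : ℝ) < mx (f k) N := by
              have := (hmx k).1
              exact_mod_cast (show 0 < mx (f k) N by omega)
            have h7 : (0 : ℝ) < v k x := by
              have := (hvG x hx k).1
              exact_mod_cast (show 0 < v k x by omega)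
            have h8 := Real.log_le_log h6 h4
            rw [Real.log_mul (by positivity) h7.ne', Real.log_pow, ← hld] at h8
            have h9 := (hl k).1
            nlinarith
          have h6 : 1 / Real.log (v k x : ℝ) ≤ q * (1 / l k) := by
            have h7 := hl0 k
            rw [mul_one_div, div_le_div_iff₀ (hvk k).1 h7, one_mul]
            calc l k = q * ((1 - ε) * l k) := by rw [← mul_assoc, hqe, one_mul]
              _ ≤ q * Real.log (v k x : ℝ) := mul_le_mul_of_nonneg_left h5 hq0.le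
          calc q / V0 * (1 / Real.log (v k x : ℝ)) ≤ q / V0 * (q * (1 / l k)) := mul_le_mul_of_nonneg_left h6 (by positivity)
            _ = q * (q / V0) * (1 / l k) := by ring
      · rw [if_neg h1]
        have h2 : ∃ p : ℕ, p.Prime ∧ p ≤ z n ∧ (p : ℤ) ∣ F.eval (x : ℤ) := by
          by_contra hcon
          push Not at hcon
          exact h1 (mem_rg.2 ⟨(mem_Gd.1 hx).1, hcon⟩)
        obtain ⟨p, hp, hpz, hpF⟩ := h2
        rw [hF, hf.dvd_iff hp] at hpF
        obtain ⟨k, hk⟩ := hpF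
        rw [← hv] at hk
        obtain ⟨h2, h3, _⟩ := hvG x hx k
        exact (prod_eq_zero (mem_univ k) ((a4 (v k x) h2 h3).2.1 ⟨p, hp, hpz, hk⟩)).le
    have hS : ∑ x ∈ Gd f N, pw μ A (vf f x) ≤ ((rg F (z n) N).card : ℝ) * B2 +
        (((rg F (z n) N).filter Bad).card : ℝ) * B1 := by
      calc ∑ x ∈ Gd f N, pw μ A (vf f x) ≤ ∑ x ∈ Gd f N, (if x ∈ rg F (z n) N then (B2 + if Bad x then B1 else 0) else 0) :=
            sum_le_sum hx
        _ ≤ ∑ x ∈ Icc 1 N, (if x ∈ rg F (z n) N then (B2 + if Bad x then B1 else 0) else 0) := by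
            refine sum_le_sum_of_subset_of_nonneg (fun x hx => mem_Icc.2 (mem_Gd.1 hx).1) (fun x _ _ => ?_)
            split_ifs <;> positivity
        _ = ∑ x ∈ rg F (z n) N, (B2 + if Bad x then B1 else 0) := by
            rw [← sum_filter]
            congr 1
            ext x
            rw [mem_filter, mem_Icc]
            constructor
            · exact fun h => h.2
            · exact fun h => ⟨(mem_rg.1 h).1, h⟩
        _ = _ := by
            rw [sum_add_distrib, sum_const, nsmul_eq_mul, ← sum_filter, sum_const, nsmul_eq_mul]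
    have hc1 : ((rg F (z n) N).card : ℝ) ≤ (q + ε) * (N * W0) := by
      have h1 := (abs_le.1 (hcnt1 N le_rfl)).2
      have h2 : (N : ℝ) * W1 ≤ N * (q * W0) := mul_le_mul_of_nonneg_left w1q hN0.le
      linarith
    have hc2 : (((rg F (z n) N).filter Bad).card : ℝ) ≤ m * d * ((3 * ε * q + 2 * ε) * (N * W0)) := by
      have h1 : (rg F (z n) N).filter Bad ⊆ (univ : Finset (Fin m)).biUnion (fun k => (Ck k).biUnion (fun c =>
          (rg F (z n) N).filter (fun x : ℕ => |(x : ℝ) - c| ≤ ε * N))) := by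
        intro x hx
        rw [mem_filter, hBad] at hx
        obtain ⟨h2, k, c, hc, h3⟩ := hx
        rw [mem_biUnion]
        refine ⟨k, mem_univ k, ?_⟩
        rw [mem_biUnion]
        exact ⟨c, hc, mem_filter.2 ⟨h2, h3⟩⟩
      have w1' : 0 ≤ W1 := w0.le.trans w01'
      have hE0 : 0 ≤ ε * (N * W0) := by positivity
      have h9 : 1 ≤ ε * N := by
        rw [div_le_iff₀ hε] at a9
        linarith
      have h2 : ∀ c : ℝ, (((rg F (z n) N).filter (fun x : ℕ => |(x : ℝ) - c| ≤ ε * N)).card : ℝ) ≤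
          (3 * ε * q + 2 * ε) * (N * W0) := by
        intro c
        refine (interval_count w1' hE0 hcnt1 c (ε * N) (by positivity) _ (filter_subset _ _) (fun x hx => (mem_filter.1 hx).2)).trans ?_
        have h3 : (2 * (ε * N) + 1) * W1 ≤ (3 * (ε * N)) * (q * W0) :=
          mul_le_mul (by linarith) w1q w1' (by positivity)
        linarith
      have h3 : (((rg F (z n) N).filter Bad).card : ℝ) ≤ ∑ k, ∑ c ∈ Ck k,
          (((rg F (z n) N).filter (fun x : ℕ => |(x : ℝ) - c| ≤ ε * N)).card : ℝ) := by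
        have h4 := (card_le_card h1).trans (card_biUnion_le.trans (sum_le_sum (fun k _ => card_biUnion_le)))
        exact_mod_cast h4
      refine h3.trans ?_
      have hB : 0 ≤ (3 * ε * q + 2 * ε) * (N * W0) := by positivity
      have h4 : ∀ k ∈ (univ : Finset (Fin m)), ∑ c ∈ Ck k, (((rg F (z n) N).filter (fun x : ℕ => |(x : ℝ) - c| ≤ ε * N)).card : ℝ) ≤
          d * ((3 * ε * q + 2 * ε) * (N * W0)) := by
        intro k _
        refine (sum_le_card_nsmul _ _ _ (fun c _ => h2 c)).trans ?_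
        rw [nsmul_eq_mul]
        exact mul_le_mul_of_nonneg_right (by exact_mod_cast hCk1 k) hB
      refine (sum_le_card_nsmul _ _ _ h4).trans (le_of_eq ?_)
      rw [card_univ, Fintype.card_fin, nsmul_eq_mul]
      ring
    refine hS.trans ?_
    refine (add_le_add (mul_le_mul_of_nonneg_right hc1 hB20) (mul_le_mul_of_nonneg_right hc2 hB10)).trans ?_
    have h1 : (q + ε) * (N * W0) * B2 + m * d * ((3 * ε * q + 2 * ε) * (N * W0)) * B1 =
        Phi m d C1 ε * (W0 / V0 ^ m * (N / ∏ k, l k)) := by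
      have e1 : ((C1 : ℝ) * (q / V0)) ^ m = (C1 * q) ^ m / V0 ^ m := by
        rw [← div_pow]
        congr 1
        ring
      have e2 : (q * (q / V0)) ^ m = q ^ (2 * m) / V0 ^ m := by
        rw [pow_mul, ← div_pow]
        congr 1
        ring
      rw [hB1, hB2, e1, e2]
      unfold Phi
      rw [← hq]
      ring
    rw [h1, hMT]
    exact mul_le_mul_of_nonneg_right hΦ (by positivity)

end Pool.Agent.Q197.BH
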