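import Pool.Agent.Q197.BH.Main
import Pool.Agent.Q197.PS.PolyG

/-!
# Schinzel's formula for `F_1(n), ..., F_g(n), N - G(n)`
-/

set_option autoImplicit false
set_option linter.unusedSectionVars false

namespace Pool.Agent.Q197.BH

open Finset Filter Polynomial MeasureTheory ProbabilityTheory Pool.Agent.Q197.FM Pool.Agent.Q253.Line
open scoped Topology

theorem poly_ratio {P : ℤ[X]} (hl : 0 < P.leadingCoeff) :
    Tendsto (fun n : ℕ => ((P.eval (n : ℤ) : ℤ) : ℝ) / (n : ℝ) ^ P.natDegree) atTop (𝓝 (P.leadingCoeff : ℝ)) := by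
  obtain ⟨Q, hQ⟩ : ∃ Q : ℝ[X], Q = P.map (Int.castRingHom ℝ) := ⟨_, rfl⟩
  have hinj : Function.Injective (Int.castRingHom ℝ) := Int.cast_injective
  have hP0 : P ≠ 0 := by
    rintro rfl
    simp at hl
  have hdeg : Q.degree = (X ^ P.natDegree : ℝ[X]).degree := by
    rw [hQ, degree_map_eq_of_injective hinj, degree_X_pow, degree_eq_natDegree hP0]
  have h1 := (div_tendsto_atTop_leadingCoeff_div_of_degree_eq Q (X ^ P.natDegree) hdeg).comp (tendsto_natCast_atTop_atTop (R := ℝ))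
  rw [leadingCoeff_X_pow, div_one, hQ, leadingCoeff_map_of_injective hinj] at h1
  refine h1.congr (fun n => ?_)
  simp only [Function.comp_apply, eval_pow, eval_X]
  rw [Pool.Agent.Q197.PS.eval_real]

theorem log_top : Tendsto (fun n : ℕ => Real.log (n : ℝ)) atTop atTop :=
  Real.tendsto_log_atTop.comp tendsto_natCast_atTop_atTop

theorem log_poly {P : ℤ[X]} (hl : 0 < P.leadingCoeff) :
    Tendsto (fun n : ℕ => Real.log ((P.eval (n : ℤ) : ℤ) : ℝ) / Real.log n) atTop (𝓝 (P.natDegree : ℝ)) := by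
  have hl' : (0 : ℝ) < P.leadingCoeff := by exact_mod_cast hl
  have h1 := poly_ratio hl
  have h2 := ((Real.continuousAt_log hl'.ne').tendsto.comp h1).div_atTop log_top
  have h3 := h2.add_const (P.natDegree : ℝ)
  rw [zero_add] at h3
  refine h3.congr' ?_
  filter_upwards [h1.eventually_const_lt hl', eventually_ge_atTop 2] with n h4 h5
  have hn0 : (0 : ℝ) < n := by exact_mod_cast (show 0 < n by omega)
  have hL : 0 < Real.log (n : ℝ) := Real.log_pos (by exact_mod_cast (show 1 < n by omega))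
  have h6 : (0 : ℝ) < ((P.eval (n : ℤ) : ℤ) : ℝ) := by
    rcases (div_pos_iff.1 h4) with h | h
    · exact h.1
    · exact absurd h.2 (not_lt.2 (by positivity))
  simp only [Function.comp_apply]
  rw [Real.log_div h6.ne' (by positivity), Real.log_pow]
  field_simp
  ring

theorem eval_top {P : ℤ[X]} (hd : 1 ≤ P.natDegree) (hl : 0 < P.leadingCoeff) :
    Tendsto (fun n : ℕ => P.eval (n : ℤ)) atTop atTop := by
  have h1 := poly_ratio hl
  have hl' : (0 : ℝ) < P.leadingCoeff := by exact_mod_cast hl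
  have h2 : Tendsto (fun n : ℕ => ((P.eval (n : ℤ) : ℤ) : ℝ)) atTop atTop := by
    have h3 : Tendsto (fun n : ℕ => (n : ℝ) ^ P.natDegree) atTop atTop :=
      (tendsto_pow_atTop (by omega)).comp tendsto_natCast_atTop_atTop
    refine (h1.pos_mul_atTop hl' h3).congr' ?_
    filter_upwards [eventually_ge_atTop 1] with n hn
    have hn0 : (0 : ℝ) < n := by exact_mod_cast (show 0 < n by omega)
    field_simp
  exact tendsto_intCast_atTop_iff.1 h2

theorem strict_ev {P : ℤ[X]} (hd : 1 ≤ P.natDegree) (hl : 0 < P.leadingCoeff) :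
    ∃ n0 : ℕ, ∀ a b : ℕ, n0 ≤ a → a < b → P.eval (a : ℤ) < P.eval (b : ℤ) := by
  obtain ⟨Q, hQ⟩ : ∃ Q : ℝ[X], Q = P.map (Int.castRingHom ℝ) := ⟨_, rfl⟩
  have hinj : Function.Injective (Int.castRingHom ℝ) := Int.cast_injective
  have hQd : Q.natDegree = P.natDegree := by rw [hQ, Polynomial.natDegree_map_eq_of_injective hinj]
  have hQl : 0 < Q.leadingCoeff := by
    rw [hQ, Polynomial.leadingCoeff_map_of_injective hinj]
    simpa using hl
  obtain ⟨x0, hx0⟩ := Pool.Agent.Q197.PS.poly_strict hQl (by omega)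
  refine ⟨⌈x0⌉₊, fun a b ha hab => ?_⟩
  have h1 := hx0 a b ((Nat.le_ceil x0).trans (by exact_mod_cast ha)) (by exact_mod_cast hab)
  rw [hQ, Pool.Agent.Q197.PS.eval_real, Pool.Agent.Q197.PS.eval_real] at h1
  exact_mod_cast h1

theorem seg {T : Set ℕ} (hf : T.Finite) (h1 : ∀ n ∈ T, 1 ≤ n) (h2 : ∀ n ∈ T, ∀ n', 1 ≤ n' → n' ≤ n → n' ∈ T) (n : ℕ) :
    n ∈ T ↔ 1 ≤ n ∧ n ≤ T.ncard := by
  rcases T.eq_empty_or_nonempty with rfl | hne
  · simp only [Set.mem_empty_iff_false, Set.ncard_empty, false_iff]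
    omega
  · obtain ⟨m, hm, hmax⟩ := hf.exists_maximalFor (fun i => i) T hne
    have hT : T = ((Icc 1 m : Finset ℕ) : Set ℕ) := by
      ext k
      rw [mem_coe, mem_Icc]
      constructor
      · intro hk
        refine ⟨h1 k hk, ?_⟩
        by_contra hcon
        push Not at hcon
        exact absurd (hmax hk hcon.le) (not_le.2 hcon)
      · rintro ⟨h3, h4⟩
        exact h2 m hm k h3 h4
    have hc : T.ncard = m := by
      rw [hT, Set.ncard_coe_finset, Nat.card_Icc, Nat.add_sub_cancel]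
    rw [hc, hT, mem_coe, mem_Icc]

/-- The `n ≥ 1` with `G(n) < N`. -/
def Tn (G : ℤ[X]) (N : ℕ) : Set ℕ := {n : ℕ | 1 ≤ n ∧ 0 < (N : ℤ) - G.eval (n : ℤ)}

/-- Their number. -/
noncomputable def XN (G : ℤ[X]) (N : ℕ) : ℕ := (Tn G N).ncard

theorem Tn_finite {G : ℤ[X]} (hd : 1 ≤ G.natDegree) (hl : 0 < G.leadingCoeff) (N : ℕ) : (Tn G N).Finite := by
  obtain ⟨k, hk⟩ := eventually_atTop.1 ((eval_top hd hl).eventually_ge_atTop (N : ℤ))
  refine (Set.finite_Iio k).subset (fun n hn => ?_)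
  by_contra hcon
  have h1 := hk n (not_lt.1 hcon)
  have h2 := hn.2
  omega

theorem XN_top {G : ℤ[X]} (hd : 1 ≤ G.natDegree) (hl : 0 < G.leadingCoeff) : Tendsto (XN G) atTop atTop := by
  rw [tendsto_atTop]
  intro K
  filter_upwards [eventually_gt_atTop (∑ n ∈ Icc 1 K, (G.eval (n : ℤ)).natAbs)] with N hN
  have h1 : ((Icc 1 K : Finset ℕ) : Set ℕ) ⊆ Tn G N := by
    intro n hn
    rw [mem_coe] at hn
    refine ⟨(mem_Icc.1 hn).1, ?_⟩
    have h2 : (G.eval (n : ℤ)).natAbs ≤ ∑ n ∈ Icc 1 K, (G.eval (n : ℤ)).natAbs :=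
      single_le_sum (f := fun n : ℕ => (G.eval (n : ℤ)).natAbs) (fun _ _ => Nat.zero_le _) hn
    omega
  have h2 := Set.ncard_le_ncard h1 (Tn_finite hd hl N)
  rw [Set.ncard_coe_finset, Nat.card_Icc, Nat.add_sub_cancel] at h2
  exact h2

theorem Tn_iff {G : ℤ[X]} (hd : 1 ≤ G.natDegree) (hl : 0 < G.leadingCoeff) : ∀ᶠ N : ℕ in atTop, ∀ n : ℕ,
    (1 ≤ n ∧ 0 < (N : ℤ) - G.eval (n : ℤ)) ↔ 1 ≤ n ∧ n ≤ XN G N := by
  obtain ⟨n0, hn0⟩ := strict_ev hd hl
  filter_upwards [eventually_gt_atTop (∑ n ∈ Icc 1 n0, (G.eval (n : ℤ)).natAbs)] with N hN n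
  have h := seg (Tn_finite hd hl N) (fun n hn => hn.1) (fun n hn n' h1 h2 => ⟨h1, ?_⟩) n
  · exact h
  · rcases Nat.lt_or_ge n0 n' with h3 | h3
    · rcases Nat.lt_or_ge n' n with h4 | h4
      · have h5 := hn0 n' n h3.le h4
        have h6 := hn.2
        omega
      · rw [show n' = n by omega]
        exact hn.2
    · have h2 : (G.eval (n' : ℤ)).natAbs ≤ ∑ n ∈ Icc 1 n0, (G.eval (n : ℤ)).natAbs :=
        single_le_sum (f := fun n : ℕ => (G.eval (n : ℤ)).natAbs) (fun _ _ => Nat.zero_le _) (mem_Icc.2 ⟨h1, h3⟩)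
      omega

theorem coef_bound (P : ℤ[X]) : ∃ H : ℕ, ∀ i, |P.coeff i| ≤ H := by
  refine ⟨∑ j ∈ range (P.natDegree + 1), (P.coeff j).natAbs, fun i => ?_⟩
  rcases Nat.lt_or_ge P.natDegree i with h | h
  · rw [coeff_eq_zero_of_natDegree_lt h, abs_zero]
    positivity
  · have h1 : (P.coeff i).natAbs ≤ ∑ j ∈ range (P.natDegree + 1), (P.coeff j).natAbs :=
      single_le_sum (f := fun j => (P.coeff j).natAbs) (fun _ _ => Nat.zero_le _) (mem_range.2 (by omega))
    rw [Int.abs_eq_natAbs]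
    exact_mod_cast h1

theorem mx_log {P : ℤ[X]} (hd : 1 ≤ P.natDegree) (hl : 0 < P.leadingCoeff) :
    Tendsto (fun n : ℕ => Real.log (mx P n) / Real.log n) atTop (𝓝 (P.natDegree : ℝ)) := by
  obtain ⟨H, hH⟩ := coef_bound P
  have hup : Tendsto (fun n : ℕ => Real.log ((P.natDegree + 1) * (H + 1)) / Real.log n + P.natDegree) atTop
      (𝓝 (P.natDegree : ℝ)) := by
    have := ((tendsto_const_nhds (x := Real.log (((P.natDegree : ℝ) + 1) * (H + 1)))).div_atTop log_top).add_const (P.natDegree : ℝ)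
    rwa [zero_add] at this
  refine tendsto_of_tendsto_of_tendsto_of_le_of_le' (log_poly hl) hup ?_ ?_
  · filter_upwards [(eval_top hd hl).eventually_gt_atTop 0, eventually_ge_atTop 2] with n h1 h2
    have hL : 0 < Real.log (n : ℝ) := Real.log_pos (by exact_mod_cast (show 1 < n by omega))
    refine div_le_div_of_nonneg_right ?_ hL.le
    refine Real.log_le_log (by exact_mod_cast h1) ?_
    have h3 := le_mx P (show 1 ≤ n by omega) le_rfl
    have h4 : P.eval (n : ℤ) ≤ mx P n := by omega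
    exact_mod_cast h4
  · filter_upwards [(eval_top hd hl).eventually_gt_atTop 0, eventually_ge_atTop 2] with n h1 h2
    have hL : 0 < Real.log (n : ℝ) := Real.log_pos (by exact_mod_cast (show 1 < n by omega))
    have hn0 : (0 : ℝ) < n := by exact_mod_cast (show 0 < n by omega)
    have h3 := le_mx P (show 1 ≤ n by omega) le_rfl
    have h4 : (0 : ℝ) < mx P n := by exact_mod_cast (show 0 < mx P n by omega)
    have h5 : mx P n ≤ (P.natDegree + 1) * ((H + 1) * n ^ P.natDegree) := by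
      unfold mx
      refine Finset.sup_le (fun x hx => ?_)
      refine (val_le le_rfl (H := H) hH (mem_Icc.1 hx).2 (by omega)).trans ?_
      exact Nat.mul_le_mul_left _ (Nat.mul_le_mul_right _ (by omega))
    have h6 : (mx P n : ℝ) ≤ ((P.natDegree + 1) * (H + 1)) * (n : ℝ) ^ P.natDegree := by
      have : (mx P n : ℝ) ≤ (((P.natDegree + 1) * ((H + 1) * n ^ P.natDegree) : ℕ) : ℝ) := Nat.cast_le.2 h5
      push_cast at this
      linarith
    have h7 := Real.log_le_log h4 h6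
    rw [Real.log_mul (by positivity) (by positivity), Real.log_pow] at h7
    calc Real.log (mx P n) / Real.log n ≤ (Real.log ((P.natDegree + 1) * (H + 1)) + P.natDegree * Real.log n) / Real.log n :=
          div_le_div_of_nonneg_right h7 hL.le
      _ = _ := by field_simp

/-- `N` and the number of the admissible arguments. -/
theorem logN_ratio {G : ℤ[X]} (hd : 1 ≤ G.natDegree) (hl : 0 < G.leadingCoeff) :
    Tendsto (fun N : ℕ => Real.log (N : ℝ) / Real.log (XN G N)) atTop (𝓝 (G.natDegree : ℝ)) := by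
  have hX := XN_top hd hl
  have h1 := (log_poly hl).comp hX
  have h2 := (log_poly hl).comp ((tendsto_add_atTop_nat 1).comp hX)
  have h3 := (Pool.Agent.Q197.CI.log_succ_ratio).comp hX
  have h4 := h2.mul h3
  rw [mul_one] at h4
  refine tendsto_of_tendsto_of_tendsto_of_le_of_le' h1 h4 ?_ ?_
  · filter_upwards [Tn_iff hd hl, hX.eventually_ge_atTop 2, hX.eventually ((eval_top hd hl).eventually_gt_atTop 0)] with N h5 h6 h7
    have hL : 0 < Real.log (XN G N : ℝ) := Real.log_pos (by exact_mod_cast (show 1 < XN G N by omega))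
    simp only [Function.comp_apply]
    refine div_le_div_of_nonneg_right (Real.log_le_log (by exact_mod_cast h7) ?_) hL.le
    have h8 := ((h5 (XN G N)).2 ⟨by omega, le_rfl⟩).2
    have h9 : G.eval ((XN G N : ℕ) : ℤ) ≤ N := by omega
    exact_mod_cast h9
  · filter_upwards [Tn_iff hd hl, hX.eventually_ge_atTop 2, eventually_ge_atTop 1] with N h5 h6 h7
    have hL : 0 < Real.log (XN G N : ℝ) := Real.log_pos (by exact_mod_cast (show 1 < XN G N by omega))
    have hL1 : 0 < Real.log ((XN G N + 1 : ℕ) : ℝ) := Real.log_pos (by exact_mod_cast (show 1 < XN G N + 1 by omega))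
    simp only [Function.comp_apply]
    have h8 : (N : ℤ) ≤ G.eval ((XN G N + 1 : ℕ) : ℤ) := by
      by_contra hcon
      push Not at hcon
      have h9 := ((h5 (XN G N + 1)).1 ⟨by omega, by omega⟩).2
      omega
    have h9 : (N : ℝ) ≤ ((G.eval ((XN G N + 1 : ℕ) : ℤ) : ℤ) : ℝ) := by exact_mod_cast h8
    have hN0 : (0 : ℝ) < N := by exact_mod_cast (show 0 < N by omega)
    have h10 := Real.log_le_log hN0 h9
    rw [div_mul_div_comm, mul_comm _ (Real.log ((XN G N + 1 : ℕ) : ℝ)), mul_div_mul_left _ _ hL1.ne']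
    exact div_le_div_of_nonneg_right h10 hL.le

theorem mx_shift_log {G : ℤ[X]} (hd : 1 ≤ G.natDegree) (hl : 0 < G.leadingCoeff) :
    Tendsto (fun N : ℕ => Real.log (mx (C (N : ℤ) - G) (XN G N)) / Real.log (XN G N)) atTop (𝓝 (G.natDegree : ℝ)) := by
  have hX := XN_top hd hl
  have hLX : Tendsto (fun N : ℕ => Real.log (XN G N : ℝ)) atTop atTop := log_top.comp hX
  obtain ⟨n0, hn0⟩ := strict_ev hd hl
  obtain ⟨B, hB⟩ : ∃ B : ℕ, ∀ n : ℕ, -(B : ℤ) ≤ G.eval (n : ℤ) := by
    refine ⟨∑ n ∈ range (n0 + 1), (G.eval (n : ℤ)).natAbs, fun n => ?_⟩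
    have h1 : ∀ k, k ≤ n0 → (G.eval (k : ℤ)).natAbs ≤ ∑ n ∈ range (n0 + 1), (G.eval (n : ℤ)).natAbs := fun k hk =>
      single_le_sum (f := fun n : ℕ => (G.eval (n : ℤ)).natAbs) (fun _ _ => Nat.zero_le _) (mem_range.2 (by omega))
    rcases Nat.lt_or_ge n0 n with h2 | h2
    · have h3 := hn0 n0 n le_rfl h2
      have h4 := h1 n0 le_rfl
      omega
    · have h4 := h1 n h2
      omega
  have h1 := logN_ratio hd hl
  have hc : Tendsto (fun N : ℕ => Real.log 2 / Real.log (XN G N : ℝ)) atTop (𝓝 0) := tendsto_const_nhds.div_atTop hLX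
  have hlo := h1.sub hc
  have hhi := h1.add hc
  rw [sub_zero] at hlo
  rw [add_zero] at hhi
  have hM : ∀ᶠ N : ℕ in atTop, N ≤ 2 * mx (C (N : ℤ) - G) (XN G N) ∧ mx (C (N : ℤ) - G) (XN G N) ≤ 2 * N := by
    filter_upwards [Tn_iff hd hl, hX.eventually_ge_atTop 1, eventually_ge_atTop (B + 2 * (G.eval ((1 : ℕ) : ℤ)).natAbs)] with N h5 h6 h7
    constructor
    · have h8 := le_mx (C (N : ℤ) - G) (N := XN G N) (x := 1) le_rfl h6
      rw [eval_sub, eval_C] at h8
      omega
    · unfold mx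
      refine Finset.sup_le (fun x hx => ?_)
      have h8 := ((h5 x).2 (mem_Icc.1 hx)).2
      have h9 := hB x
      rw [eval_sub, eval_C]
      omega
  refine tendsto_of_tendsto_of_tendsto_of_le_of_le' hlo hhi ?_ ?_
  · filter_upwards [hM, hX.eventually_ge_atTop 2, eventually_ge_atTop 1] with N h2 h3 h4
    have hL : 0 < Real.log (XN G N : ℝ) := Real.log_pos (by exact_mod_cast (show 1 < XN G N by omega))
    rw [← sub_div]
    refine div_le_div_of_nonneg_right ?_ hL.le
    have hN0 : (0 : ℝ) < N := by exact_mod_cast (show 0 < N by omega)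
    rw [← Real.log_div hN0.ne' (by norm_num)]
    refine Real.log_le_log (by positivity) ?_
    rw [div_le_iff₀ (by norm_num)]
    have : (N : ℝ) ≤ 2 * mx (C (N : ℤ) - G) (XN G N) := by exact_mod_cast h2.1
    linarith
  · filter_upwards [hM, hX.eventually_ge_atTop 2, eventually_ge_atTop 1] with N h2 h3 h4
    have hL : 0 < Real.log (XN G N : ℝ) := Real.log_pos (by exact_mod_cast (show 1 < XN G N by omega))
    rw [← add_div]
    refine div_le_div_of_nonneg_right ?_ hL.le
    have hN0 : (0 : ℝ) < N := by exact_mod_cast (show 0 < N by omega)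
    rw [← Real.log_mul hN0.ne' (by norm_num)]
    refine Real.log_le_log (by exact_mod_cast (show 0 < mx (C (N : ℤ) - G) (XN G N) by omega)) ?_
    have : (mx (C (N : ℤ) - G) (XN G N) : ℝ) ≤ 2 * N := by exact_mod_cast h2.2
    linarith

end Pool.Agent.Q197.BH
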