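import Pool.Agent.Q197.BH.Size
import Pool.Agent.H373R2.T7.Fund

/-!
# Rough values of polynomials, uniformly in the polynomial
-/

set_option autoImplicit false
set_option linter.unusedSectionVars false

namespace Pool.Agent.Q197.BH

open Finset Filter Polynomial Pool.Agent.Q197.FM Pool.Agent.Q253.Line
open scoped Topology

/-- The sieving levels. -/
structure Level (z : ℕ → ℕ) : Prop where
  mono : Monotone z
  top : Tendsto z atTop atTop
  small : ∀ ε : ℝ, 0 < ε → ∀ᶠ n : ℕ in atTop, (z n : ℝ) ≤ (n : ℝ) ^ ε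
  slow : ∀ C : ℕ, Tendsto (fun n : ℕ => ∑ p ∈ pr (z (n ^ C)) \ pr (z n), 1 / (p : ℝ)) atTop (𝓝 0)

open Classical in
/-- The `x ≤ N` for which `F(x)` has no prime factor `≤ y`. -/
noncomputable def rg (F : ℤ[X]) (y N : ℕ) : Finset ℕ :=
  (Icc 1 N).filter (fun x : ℕ => ∀ p ∈ pr y, ¬ (p : ℤ) ∣ F.eval (x : ℤ))

theorem mem_rg {F : ℤ[X]} {y N x : ℕ} : x ∈ rg F y N ↔ (1 ≤ x ∧ x ≤ N) ∧ ∀ p : ℕ, p.Prime → p ≤ y → ¬ (p : ℤ) ∣ F.eval (x : ℤ) := by
  classical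
  unfold rg
  simp only [mem_filter, mem_Icc, mem_pr]
  constructor
  · rintro ⟨h1, h2⟩
    exact ⟨h1, fun p hp hy => h2 p ⟨hp, hy⟩⟩
  · rintro ⟨h1, h2⟩
    exact ⟨h1, fun p hp => h2 p hp.1 hp.2⟩

theorem pz_eq (y : ℕ) : Pool.Agent.H373R2.T7.pz y = pr y := by
  ext p
  rw [Pool.Agent.H373R2.T7.mem_pz, mem_pr]
  tauto

theorem rough_count (κ : ℕ) (ε : ℝ) (hε : 0 < ε) : ∃ K x0 : ℕ, 1 ≤ K ∧ ∀ x y : ℕ, x0 ≤ y → y ^ K ≤ x →
    ∀ F : ℤ[X], NFD F → F.natDegree ≤ κ → ∀ N : ℕ,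
      |((rg F y N).card : ℝ) - N * W F y| ≤ ε * (N * W F y) + √(x : ℝ) := by
  classical
  obtain ⟨K, x0, hK, h⟩ := Pool.Agent.H373R2.T7.sys_fund (κ + 1) (by omega) ε hε
  refine ⟨K, x0, hK, fun x y hy hyx F hF hd N => ?_⟩
  have h1 := h x y hy hyx (fun p n => (p : ℤ) ∣ F.eval (n : ℤ)) ⟨fun p n => ?_, fun p hp => ?_⟩ N
  · have e1 : ∀ p, Pool.Agent.H373R2.T7.nuB (fun p n => (p : ℤ) ∣ F.eval (n : ℤ)) p = rt F p := by
      intro p
      unfold Pool.Agent.H373R2.T7.nuB rt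
      congr 1
      ext r
      simp only [mem_filter]
    simp only [e1, pz_eq] at h1
    have e2 : (rg F y N).card = ((Icc 1 N).filter (fun n : ℕ => ∀ p ∈ pr y, ¬ (p : ℤ) ∣ F.eval (n : ℤ))).card := by
      unfold rg
      congr 1
    rw [e2]
    exact h1
  · refine dvd_eval_congr F ?_
    have h2 : (n : ℤ) - ((n % p : ℕ) : ℤ) = p * ((n / p : ℕ) : ℤ) := by
      have h3 := Nat.div_add_mod n p
      have h4 : ((p * (n / p) + n % p : ℕ) : ℤ) = n := by exact_mod_cast h3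
      push_cast at h4 ⊢
      linarith
    rw [h2]
    exact dvd_mul_right _ _
  · have h2 := rt_le hp (hF p hp)
    have e1 : Pool.Agent.H373R2.T7.nuB (fun p n => (p : ℤ) ∣ F.eval (n : ℤ)) p = rt F p := by
      unfold Pool.Agent.H373R2.T7.nuB rt
      congr 1
      ext r
      simp only [mem_filter]
    rw [e1]
    omega

theorem one_sub_sum_le {P : Finset ℕ} {a : ℕ → ℝ} (h0 : ∀ p ∈ P, 0 ≤ a p) (h1 : ∀ p ∈ P, a p ≤ 1) :
    1 - ∑ p ∈ P, a p ≤ ∏ p ∈ P, (1 - a p) := by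
  induction P using Finset.induction_on with
  | empty => simp
  | insert q P hq ih =>
    rw [sum_insert hq, prod_insert hq]
    have h2 := ih (fun p hp => h0 p (mem_insert_of_mem hp)) (fun p hp => h1 p (mem_insert_of_mem hp))
    have h3 := h0 q (mem_insert_self _ _)
    have h4 := h1 q (mem_insert_self _ _)
    have h5 : ∏ p ∈ P, (1 - a p) ≤ 1 := prod_le_one (fun p hp => by linarith [h1 p (mem_insert_of_mem hp)])
      (fun p hp => by linarith [h0 p (mem_insert_of_mem hp)])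
    nlinarith

theorem W_anti {F : ℤ[X]} (hF : NFD F) {y y' : ℕ} (h : y ≤ y') : W F y' ≤ W F y := by
  refine W_le_prod hF (fun p hp => ?_)
  rw [mem_pr] at hp ⊢
  exact ⟨hp.1, hp.2.trans h⟩

theorem W_le_one {F : ℤ[X]} (hF : NFD F) (y : ℕ) : W F y ≤ 1 := by
  unfold W
  refine prod_le_one (fun p hp => ?_) (fun p hp => (fac_mem hF (mem_pr.1 hp).1).2)
  have h1 := (fac_mem hF (mem_pr.1 hp).1).1
  have h2 : (0 : ℝ) < p := by exact_mod_cast (mem_pr.1 hp).1.pos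
  have h3 : 0 < (1 : ℝ) / p := by positivity
  linarith

theorem W_close {z : ℕ → ℕ} (hz : Level z) (κ C : ℕ) {ε : ℝ} (hε : 0 < ε) : ∀ᶠ n : ℕ in atTop,
    ∀ F : ℤ[X], NFD F → F.natDegree ≤ κ → ∀ y y' : ℕ, z n ≤ y → y ≤ y' → y' ≤ z (n ^ C) → (1 - ε) * W F y ≤ W F y' := by
  have h1 : ∀ᶠ n : ℕ in atTop, ∑ p ∈ pr (z (n ^ C)) \ pr (z n), 1 / (p : ℝ) < ε / (κ + 1) :=
    (hz.slow C).eventually_lt_const (by positivity)
  filter_upwards [h1] with n hn F hF hd y y' hy hyy hy'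
  have hsub : pr y ⊆ pr y' := fun p hp => by
    rw [mem_pr] at hp ⊢
    exact ⟨hp.1, hp.2.trans hyy⟩
  have h2 : W F y' = (∏ p ∈ pr y' \ pr y, (1 - (rt F p : ℝ) / p)) * W F y := by
    unfold W
    rw [prod_sdiff hsub]
  rw [h2]
  refine mul_le_mul_of_nonneg_right ?_ (W_pos hF y).le
  have hpr : ∀ p ∈ pr y' \ pr y, p.Prime := fun p hp => (mem_pr.1 (Finset.mem_sdiff.1 hp).1).1
  refine le_trans ?_ (one_sub_sum_le (fun p hp => by positivity) (fun p hp => ?_))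
  · have h3 : ∑ p ∈ pr y' \ pr y, (rt F p : ℝ) / p ≤ ∑ p ∈ pr y' \ pr y, κ * (1 / (p : ℝ)) := by
      refine sum_le_sum (fun p hp => ?_)
      have h4 := rt_le (hpr p hp) (hF p (hpr p hp))
      have h5 : (rt F p : ℝ) ≤ κ := by exact_mod_cast h4.trans hd
      have h6 : (0 : ℝ) < p := by exact_mod_cast (hpr p hp).pos
      rw [mul_one_div]
      exact div_le_div_of_nonneg_right h5 h6.le
    have h4 : ∑ p ∈ pr y' \ pr y, (1 / (p : ℝ)) ≤ ∑ p ∈ pr (z (n ^ C)) \ pr (z n), 1 / (p : ℝ) := by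
      refine sum_le_sum_of_subset_of_nonneg (fun p hp => ?_) (fun _ _ _ => by positivity)
      rw [Finset.mem_sdiff, mem_pr, mem_pr] at hp ⊢
      exact ⟨⟨hp.1.1, hp.1.2.trans hy'⟩, fun h => hp.2 ⟨h.1, h.2.trans hy⟩⟩
    rw [← mul_sum] at h3
    have h5 : (κ : ℝ) * ∑ p ∈ pr y' \ pr y, (1 / (p : ℝ)) ≤ κ * (ε / (κ + 1)) :=
      mul_le_mul_of_nonneg_left (h4.trans hn.le) (Nat.cast_nonneg _)
    have h6 : (κ : ℝ) * (ε / (κ + 1)) ≤ ε := by
      rw [mul_div_assoc', div_le_iff₀ (by positivity)]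
      nlinarith
    linarith
  · have h4 := (fac_mem hF (hpr p hp)).1
    have h6 : (0 : ℝ) < p := by exact_mod_cast (hpr p hp).pos
    have h7 : 0 < (1 : ℝ) / p := by positivity
    linarith

theorem sqrt_top : Tendsto Nat.sqrt atTop atTop := by
  rw [tendsto_atTop]
  intro b
  filter_upwards [eventually_ge_atTop (b ^ 2)] with n hn
  rw [Nat.le_sqrt']
  exact hn

theorem lt_sqrt_pow {N : ℕ} (hN : 9 ≤ N) : N ≤ (Nat.sqrt N) ^ 4 := by
  have h1 : 3 ≤ Nat.sqrt N := by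
    rw [Nat.le_sqrt']
    exact hN
  have h2 := Nat.lt_succ_sqrt N
  obtain ⟨n, hn⟩ : ∃ n, n = Nat.sqrt N := ⟨_, rfl⟩
  rw [← hn] at h1 h2 ⊢
  have h3 : (n + 1) * (n + 1) ≤ n ^ 4 := by
    have h4 : n + 1 ≤ n * n := by nlinarith
    calc (n + 1) * (n + 1) ≤ (n * n) * (n * n) := Nat.mul_le_mul h4 h4
      _ = n ^ 4 := by ring
  have h5 : Nat.succ n * Nat.succ n = (n + 1) * (n + 1) := rfl
  omega

theorem W_big (κ : ℕ) {b : ℝ} (hb : 0 < b) (D : ℕ) : ∀ᶠ N : ℕ in atTop, ∀ F : ℤ[X], NFD F → F.natDegree ≤ κ →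
    b * (N : ℝ) ^ (3 / 4 : ℝ) * Real.log N ^ D ≤ N * W F N := by
  obtain ⟨c, hc, h⟩ := W_lower κ
  filter_upwards [main_size (κ + D) (a := 1) (b := c / b) (ε := 1 / 4) (by norm_num) (by positivity) (by norm_num) (by norm_num),
    eventually_ge_atTop 3] with N h1 h2 F hF hd
  have h3 := h N h2 F hF hd
  have hN0 : (0 : ℝ) < N := by exact_mod_cast (show 0 < N by omega)
  have hL : 0 < Real.log (N : ℝ) := Real.log_pos (by exact_mod_cast (show 1 < N by omega))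
  have e : (1 : ℝ) - 1 / 4 = 3 / 4 := by norm_num
  rw [e, one_mul] at h1
  have h4 : (N : ℝ) ^ (3 / 4 : ℝ) ≤ c / b * (N / Real.log N ^ (κ + D)) := by linarith
  calc b * (N : ℝ) ^ (3 / 4 : ℝ) * Real.log N ^ D ≤ b * (c / b * (N / Real.log N ^ (κ + D))) * Real.log N ^ D := by
        gcongr
    _ = N * (c / Real.log N ^ κ) := by
        rw [pow_add]
        field_simp
    _ ≤ N * W F N := mul_le_mul_of_nonneg_left h3 hN0.le

/-- The number of rough values in initial segments. -/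
theorem count_main {z : ℕ → ℕ} (hz : Level z) (κ C : ℕ) {ε : ℝ} (hε : 0 < ε) : ∀ᶠ N : ℕ in atTop,
    ∀ F : ℤ[X], NFD F → F.natDegree ≤ κ → ∀ y : ℕ, z (Nat.sqrt N) ≤ y → y ≤ z ((Nat.sqrt N) ^ C) → ∀ Y : ℕ, Y ≤ N →
      |((rg F y Y).card : ℝ) - Y * W F y| ≤ ε * (N * W F (z N)) := by
  obtain ⟨K, x0, hK, hcount⟩ := rough_count κ (ε / 4) (by positivity)
  obtain ⟨C', hC'⟩ : ∃ C' : ℕ, C' = C + 4 := ⟨_, rfl⟩
  have hC0 : (0 : ℝ) < C' := by exact_mod_cast (show 0 < C' by omega)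
  have hK0 : (0 : ℝ) < K := by exact_mod_cast (show 0 < K by omega)
  have hsm := sqrt_top.eventually ((tendsto_pow_atTop (show C' ≠ 0 by omega)).eventually
    (hz.small (1 / (C' * K)) (by positivity)))
  filter_upwards [sqrt_top.eventually (W_close hz κ C' (ε := 1 / 2) (by norm_num)), hsm,
    sqrt_top.eventually (hz.top.eventually_ge_atTop x0), eventually_ge_atTop 9,
    W_big κ (b := 4 / ε) (by positivity) 0, hz.small 1 one_pos] with N h1 h2 h3 h4 h5 h6 F hF hd y hy hy' Y hY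
  have hs3 : 3 ≤ Nat.sqrt N := by
    rw [Nat.le_sqrt']
    exact h4
  have hN0 : (0 : ℝ) < N := by exact_mod_cast (show 0 < N by omega)
  have hyC' : y ≤ z ((Nat.sqrt N) ^ C') := hy'.trans (hz.mono (Nat.pow_le_pow_right (by omega) (by omega)))
  have hzN1 : z (Nat.sqrt N) ≤ z N := hz.mono (Nat.sqrt_le_self N)
  have hzN2 : z N ≤ z ((Nat.sqrt N) ^ C') := hz.mono ((lt_sqrt_pow h4).trans (Nat.pow_le_pow_right (by omega) (by omega)))
  have hyK : y ^ K ≤ N := by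
    have h7 : (y : ℝ) ≤ (((Nat.sqrt N) ^ C' : ℕ) : ℝ) ^ (1 / (C' * K) : ℝ) := le_trans (by exact_mod_cast hyC') h2
    have h8 : (y : ℝ) ^ K ≤ Nat.sqrt N := by
      calc (y : ℝ) ^ K ≤ ((((Nat.sqrt N) ^ C' : ℕ) : ℝ) ^ (1 / (C' * K) : ℝ)) ^ K := pow_le_pow_left₀ (Nat.cast_nonneg _) h7 K
        _ = Nat.sqrt N := by
          push_cast
          rw [← Real.rpow_natCast, ← Real.rpow_mul (by positivity), ← Real.rpow_natCast, ← Real.rpow_mul (Nat.cast_nonneg _)]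
          have : (C' : ℝ) * (1 / (C' * K) * K) = 1 := by
            have h9 : (C' : ℝ) ≠ 0 := by rw [hC']; positivity
            have h10 : (K : ℝ) ≠ 0 := by exact_mod_cast (show K ≠ 0 by omega)
            field_simp
          rw [this, Real.rpow_one]
    have h9 : y ^ K ≤ Nat.sqrt N := by exact_mod_cast h8
    exact h9.trans (Nat.sqrt_le_self N)
  have h7 := hcount N y (h3.trans hy) hyK F hF hd Y
  refine h7.trans ?_
  have hWy : W F y ≤ 2 * W F (z N) := by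
    have h8 := h1 F hF hd (z (Nat.sqrt N)) (z N) le_rfl hzN1 hzN2
    have h9 := W_anti hF hy
    linarith
  have h8 : (Y : ℝ) ≤ N := by exact_mod_cast hY
  have h9 : 0 < W F (z N) := W_pos hF _
  have h10 : ε / 4 * (Y * W F y) ≤ ε / 4 * (N * (2 * W F (z N))) := by
    refine mul_le_mul_of_nonneg_left (mul_le_mul h8 hWy (W_pos hF _).le hN0.le) (by positivity)
  have h11 : √(N : ℝ) ≤ ε / 4 * (N * W F (z N)) := by
    have h12 := h5 F hF hd
    rw [pow_zero, mul_one] at h12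
    have h13 : z N ≤ N := by
      rw [Real.rpow_one] at h6
      exact_mod_cast h6
    have h14 : W F N ≤ W F (z N) := W_anti hF h13
    have h15 : √(N : ℝ) ≤ (N : ℝ) ^ (3 / 4 : ℝ) := by
      rw [Real.sqrt_eq_rpow]
      exact Real.rpow_le_rpow_of_exponent_le (by exact_mod_cast (show 1 ≤ N by omega)) (by norm_num)
    have h16 : (N : ℝ) * W F N ≤ N * W F (z N) := mul_le_mul_of_nonneg_left h14 hN0.le
    have h17 : 4 / ε * (N : ℝ) ^ (3 / 4 : ℝ) ≤ N * W F (z N) := h12.trans h16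
    rw [div_mul_eq_mul_div, div_le_iff₀ hε] at h17
    linarith
  have h12 : 0 ≤ ε * (N * W F (z N)) := by positivity
  have h13 : ε / 4 * (N * (2 * W F (z N))) = ε * (N * W F (z N)) / 2 := by ring
  have h14 : ε / 4 * (N * W F (z N)) = ε * (N * W F (z N)) / 4 := by ring
  linarith

end Pool.Agent.Q197.BH
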