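import Pool.Agent.Q197.FM.Line1

/-!
# The sizes of the values of a polynomial
-/

set_option autoImplicit false
set_option linter.unusedSectionVars false

namespace Pool.Agent.Q197.BH

open Finset Filter Polynomial Pool.Agent.Q197.FM
open scoped Topology

/-- The largest absolute value at `1, ..., X`. -/
noncomputable def mx (f : ℤ[X]) (N : ℕ) : ℕ := (Icc 1 N).sup (fun x : ℕ => (f.eval (x : ℤ)).natAbs)

theorem le_mx (f : ℤ[X]) {N x : ℕ} (h1 : 1 ≤ x) (h2 : x ≤ N) : (f.eval (x : ℤ)).natAbs ≤ mx f N := by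
  unfold mx
  exact le_sup (f := fun x : ℕ => (f.eval (x : ℤ)).natAbs) (mem_Icc.2 ⟨h1, h2⟩)

theorem mx_attained (f : ℤ[X]) {N : ℕ} (hN : 1 ≤ N) : ∃ y : ℕ, 1 ≤ y ∧ y ≤ N ∧ mx f N = (f.eval (y : ℤ)).natAbs := by
  obtain ⟨y, hy, h⟩ := exists_mem_eq_sup (Icc 1 N) ⟨1, mem_Icc.2 ⟨le_rfl, hN⟩⟩ (fun x : ℕ => (f.eval (x : ℤ)).natAbs)
  rw [mem_Icc] at hy
  exact ⟨y, hy.1, hy.2, h⟩

theorem prod_map_le {s : Multiset ℂ} {g h : ℂ → ℝ} (hg : ∀ r ∈ s, 0 ≤ g r) (hgh : ∀ r ∈ s, g r ≤ h r) :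
    (s.map g).prod ≤ (s.map h).prod := by
  induction s using Multiset.induction_on with
  | empty => simp
  | cons a s ih =>
    rw [Multiset.map_cons, Multiset.prod_cons, Multiset.map_cons, Multiset.prod_cons]
    have h1 := ih (fun r hr => hg r (Multiset.mem_cons_of_mem hr)) (fun r hr => hgh r (Multiset.mem_cons_of_mem hr))
    have h2 : 0 ≤ (s.map g).prod := Multiset.prod_nonneg (fun a ha => by
      rw [Multiset.mem_map] at ha
      obtain ⟨r, hr, rfl⟩ := ha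
      exact hg r (Multiset.mem_cons_of_mem hr))
    have h3 := hgh a (Multiset.mem_cons_self _ _)
    have h4 := hg a (Multiset.mem_cons_self _ _)
    exact mul_le_mul h3 h1 h2 (h4.trans h3)

theorem norm_prod_map (s : Multiset ℂ) (x : ℂ) : ‖(s.map (fun r => x - r)).prod‖ = (s.map (fun r => ‖x - r‖)).prod := by
  induction s using Multiset.induction_on with
  | empty => simp
  | cons a s ih =>
    rw [Multiset.map_cons, Multiset.prod_cons, Multiset.map_cons, Multiset.prod_cons, norm_mul, ih]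

/-- Away from the real parts of the roots all values have about the same size. -/
theorem near_roots (f : ℤ[X]) {d : ℕ} (hd : f.natDegree ≤ d) {δ : ℝ} (hδ : 0 < δ) (hδ1 : δ ≤ 1) (N : ℕ) :
    ∃ C : Finset ℝ, C.card ≤ d ∧ ∀ x : ℕ, 1 ≤ x → x ≤ N → (∀ c ∈ C, δ * N < |(x : ℝ) - c|) →
      (mx f N : ℝ) ≤ (2 / δ) ^ d * ((f.eval (x : ℤ)).natAbs : ℝ) := by
  classical
  obtain ⟨P, hP⟩ : ∃ P : ℂ[X], P = f.map (Int.castRingHom ℂ) := ⟨_, rfl⟩
  have hPe : ∀ x : ℕ, ‖P.eval (x : ℂ)‖ = ((f.eval (x : ℤ)).natAbs : ℝ) := by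
    intro x
    have h1 : P.eval (x : ℂ) = ((f.eval (x : ℤ) : ℤ) : ℂ) := by
      rw [hP, show (x : ℂ) = Int.castRingHom ℂ (x : ℤ) by simp, Polynomial.eval_map, Polynomial.eval₂_hom]
      simp
    rw [h1, Complex.norm_intCast, Nat.cast_natAbs, Int.cast_abs]
  have hsp : P.Splits := IsAlgClosed.splits P
  have hnorm : ∀ x : ℂ, ‖P.eval x‖ = ‖P.leadingCoeff‖ * (P.roots.map (fun r => ‖x - r‖)).prod := by
    intro x
    rw [hsp.eval_eq_prod_roots x, norm_mul, norm_prod_map]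
  have hcard : P.roots.card ≤ d := by
    have h1 : P.natDegree ≤ f.natDegree := by
      rw [hP]
      exact natDegree_map_le
    exact (P.card_roots').trans (h1.trans hd)
  refine ⟨(P.roots.map Complex.re).toFinset, (Multiset.toFinset_card_le _).trans (by rw [Multiset.card_map]; exact hcard),
    fun x hx1 hx2 hx => ?_⟩
  obtain ⟨y, hy1, hy2, hy⟩ := mx_attained f (hx1.trans hx2)
  have hN0 : (0 : ℝ) < N := by exact_mod_cast (lt_of_lt_of_le (by omega) hx2)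
  rw [hy, ← hPe, ← hPe, hnorm, hnorm]
  have h2δ : 1 ≤ 2 / δ := by
    rw [le_div_iff₀ hδ]
    linarith
  have h1 : ∀ r ∈ P.roots, ‖(y : ℂ) - r‖ ≤ 2 / δ * ‖(x : ℂ) - r‖ := by
    intro r hr
    have h2 := hx r.re (by
      rw [Multiset.mem_toFinset, Multiset.mem_map]
      exact ⟨r, hr, rfl⟩)
    have h3 : |(x : ℝ) - r.re| ≤ ‖(x : ℂ) - r‖ := by
      have := Complex.abs_re_le_norm ((x : ℂ) - r)
      simpa using this
    have h4 : ‖(y : ℂ) - r‖ ≤ ‖(y : ℂ) - x‖ + ‖(x : ℂ) - r‖ := by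
      have := norm_add_le ((y : ℂ) - x) ((x : ℂ) - r)
      rwa [sub_add_sub_cancel] at this
    have h5 : ‖(y : ℂ) - x‖ ≤ N := by
      have h6 : (y : ℂ) - x = (((y : ℝ) - x : ℝ) : ℂ) := by push_cast; rfl
      rw [h6, Complex.norm_real, Real.norm_eq_abs, abs_le]
      have hx' : (x : ℝ) ≤ N := by exact_mod_cast hx2
      have hy' : (y : ℝ) ≤ N := by exact_mod_cast hy2
      have hx'' : (0 : ℝ) ≤ x := Nat.cast_nonneg _
      have hy'' : (0 : ℝ) ≤ y := Nat.cast_nonneg _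
      constructor <;> linarith
    have h7 : (N : ℝ) ≤ 1 / δ * ‖(x : ℂ) - r‖ := by
      rw [one_div, inv_mul_eq_div, le_div_iff₀ hδ]
      linarith
    have h8 : ‖(x : ℂ) - r‖ ≤ 1 / δ * ‖(x : ℂ) - r‖ := by
      refine le_mul_of_one_le_left (norm_nonneg _) ?_
      rw [le_div_iff₀ hδ]
      linarith
    have e : 2 / δ * ‖(x : ℂ) - r‖ = 1 / δ * ‖(x : ℂ) - r‖ + 1 / δ * ‖(x : ℂ) - r‖ := by ring
    rw [e]
    linarith
  have h2 : (P.roots.map (fun r => ‖(y : ℂ) - r‖)).prod ≤ (P.roots.map (fun r => 2 / δ * ‖(x : ℂ) - r‖)).prod :=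
    prod_map_le (fun _ _ => norm_nonneg _) h1
  rw [Multiset.prod_map_mul, Multiset.map_const', Multiset.prod_replicate] at h2
  have h3 : (2 / δ) ^ P.roots.card ≤ (2 / δ) ^ d := pow_le_pow_right₀ h2δ hcard
  have h4 : 0 ≤ (P.roots.map (fun r => ‖(x : ℂ) - r‖)).prod := Multiset.prod_nonneg (fun a ha => by
    rw [Multiset.mem_map] at ha
    obtain ⟨r, _, rfl⟩ := ha
    exact norm_nonneg _)
  calc ‖P.leadingCoeff‖ * (P.roots.map (fun r => ‖(y : ℂ) - r‖)).prod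
      ≤ ‖P.leadingCoeff‖ * ((2 / δ) ^ P.roots.card * (P.roots.map (fun r => ‖(x : ℂ) - r‖)).prod) :=
        mul_le_mul_of_nonneg_left h2 (norm_nonneg _)
    _ ≤ ‖P.leadingCoeff‖ * ((2 / δ) ^ d * (P.roots.map (fun r => ‖(x : ℂ) - r‖)).prod) := by
        refine mul_le_mul_of_nonneg_left (mul_le_mul_of_nonneg_right h3 h4) (norm_nonneg _)
    _ = (2 / δ) ^ d * (‖P.leadingCoeff‖ * (P.roots.map (fun r => ‖(x : ℂ) - r‖)).prod) := by ring

/-- Few values are small. -/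
theorem small_card {g : ℤ[X]} (hg : 1 ≤ g.natDegree) (t : ℕ) (Y : Finset ℕ) (hY : ∀ x ∈ Y, (g.eval (x : ℤ)).natAbs ≤ t) :
    Y.card ≤ (t + 1) * (2 * g.natDegree) := by
  classical
  have h1 : Y ⊆ (range (t + 1)).biUnion (fun v => Y.filter (fun x : ℕ => (g.eval (x : ℤ)).natAbs = v)) := by
    intro x hx
    rw [mem_biUnion]
    exact ⟨_, mem_range.2 (Nat.lt_succ_of_le (hY x hx)), mem_filter.2 ⟨hx, rfl⟩⟩
  refine (card_le_card h1).trans (card_biUnion_le.trans ?_)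
  refine (sum_le_card_nsmul _ _ (2 * g.natDegree) (fun v _ => ?_)).trans (by rw [card_range, smul_eq_mul])
  exact roots_abs_card hg v _ (fun x hx => (mem_filter.1 hx).2)

/-- The largest value is large. -/
theorem mx_large {g : ℤ[X]} (hg : 1 ≤ g.natDegree) (N : ℕ) : N ≤ (mx g N + 1) * (2 * g.natDegree) := by
  have h := small_card hg (mx g N) (Icc 1 N) (fun x hx => by
    rw [mem_Icc] at hx
    exact le_mx g hx.1 hx.2)
  rwa [Nat.card_Icc, Nat.add_sub_cancel] at h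

/-- Upper bound for the values. -/
theorem val_le {g : ℤ[X]} {d H : ℕ} (hd : g.natDegree ≤ d) (hc : ∀ i, |g.coeff i| ≤ H) {x N : ℕ} (hx : x ≤ N) (hN : 1 ≤ N) :
    (g.eval (x : ℤ)).natAbs ≤ (d + 1) * (H * N ^ d) := by
  have h1 : |g.eval (x : ℤ)| ≤ (d + 1) * (H * (N : ℤ) ^ d) := by
    rw [eval_eq_sum_range]
    refine (abs_sum_le_sum_abs _ _).trans ?_
    have h2 : ∀ i ∈ range (g.natDegree + 1), |g.coeff i * (x : ℤ) ^ i| ≤ H * (N : ℤ) ^ d := by
      intro i hi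
      rw [mem_range] at hi
      rw [abs_mul, abs_pow, abs_of_nonneg (show (0 : ℤ) ≤ x by positivity)]
      have h3 : (x : ℤ) ^ i ≤ (N : ℤ) ^ d := by
        have h4 : x ^ i ≤ N ^ d := (Nat.pow_le_pow_left hx i).trans (Nat.pow_le_pow_right (by omega) (by omega))
        exact_mod_cast h4
      exact mul_le_mul (hc i) h3 (by positivity) (by positivity)
    refine (sum_le_card_nsmul _ _ _ h2).trans ?_
    rw [card_range, nsmul_eq_mul]
    refine mul_le_mul_of_nonneg_right ?_ (by positivity)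
    push_cast
    have : (g.natDegree : ℤ) ≤ d := by exact_mod_cast hd
    linarith
  zify
  exact h1

end Pool.Agent.Q197.BH
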