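import Pool.Agent.Q197.BH.Chern
import Pool.Agent.Q197.BH.Sieve

/-!
# Systems of polynomials and the sieved random model
-/

set_option autoImplicit false
set_option linter.unusedSectionVars false

namespace Pool.Agent.Q197.BH

open Finset Filter Polynomial MeasureTheory ProbabilityTheory Pool.Agent.Q197.FM Pool.Agent.Q253.Line
open scoped Topology

/-- The density of the numbers without prime factors `≤ y`. -/
noncomputable def VV (y : ℕ) : ℝ := ∏ p ∈ pr y, (1 - 1 / (p : ℝ))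

theorem nfd_X : NFD (X : ℤ[X]) := fun p hp => ⟨1, by
  rw [eval_X]
  intro h
  have h1 : (p : ℤ) ≤ 1 := Int.le_of_dvd one_pos h
  have := hp.two_le
  omega⟩

theorem VV_eq (y : ℕ) : VV y = W (X : ℤ[X]) y := by
  unfold VV W
  refine prod_congr rfl (fun p hp => ?_)
  have hp' := (mem_pr.1 hp).1
  have h1 : rt (X : ℤ[X]) p = 1 := by
    unfold rt
    rw [card_eq_one]
    refine ⟨0, ?_⟩
    ext x
    rw [mem_filter, mem_range, mem_singleton, eval_X]
    constructor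
    · rintro ⟨h1, h2⟩
      have h3 : p ∣ x := by exact_mod_cast h2
      exact Nat.eq_zero_of_dvd_of_lt h3 h1
    · rintro rfl
      exact ⟨hp'.pos, by simp⟩
  rw [h1]
  norm_num

theorem VV_pos (y : ℕ) : 0 < VV y := by
  rw [VV_eq]
  exact W_pos nfd_X y

theorem VV_le_one (y : ℕ) : VV y ≤ 1 := by
  rw [VV_eq]
  exact W_le_one nfd_X y

theorem VV_anti {y y' : ℕ} (h : y ≤ y') : VV y' ≤ VV y := by
  rw [VV_eq, VV_eq]
  exact W_anti nfd_X h

/-- The sieved random model of the primes of level `z`. -/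
structure Model {Ω : Type*} [MeasurableSpace Ω] (μ : Measure Ω) (A : Ω → Set ℕ) (z : ℕ → ℕ) : Prop where
  elems : IndepElems μ A
  yes : ∀ᶠ n : ℕ in atTop, (∀ p : ℕ, p.Prime → p ≤ z n → ¬ p ∣ n) → μ.real {ω | n ∈ A ω} = 1 / (VV (z n) * Real.log n)
  no : ∀ᶠ n : ℕ in atTop, (∃ p : ℕ, p.Prime ∧ p ≤ z n ∧ p ∣ n) → μ.real {ω | n ∈ A ω} = 0

/-- Systems of `m` polynomials of degrees at most `d` with coefficients of absolute values at most `N ^ C`. -/
structure Sys (m d C N : ℕ) (f : Fin m → ℤ[X]) : Prop where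
  pos : ∀ k, 1 ≤ (f k).natDegree
  le : ∀ k, (f k).natDegree ≤ d
  coef : ∀ k i, |(f k).coeff i| ≤ (N : ℤ) ^ C
  ne : ∀ i j, i ≠ j → f i ≠ f j ∧ f i ≠ -f j
  nfd : NFD (∏ k, f k)

/-- The values at `x`. -/
noncomputable def vf {m : ℕ} (f : Fin m → ℤ[X]) (x : ℕ) : Finset ℕ := univ.image (fun k => ((f k).eval (x : ℤ)).natAbs)

open Classical in
/-- The `x ≤ N` whose values are large and distinct. -/
noncomputable def Gd {m : ℕ} (f : Fin m → ℤ[X]) (N : ℕ) : Finset ℕ :=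
  (Icc 1 N).filter (fun x : ℕ => (∀ k, Nat.sqrt N ≤ ((f k).eval (x : ℤ)).natAbs) ∧
    ∀ i j, i ≠ j → ((f i).eval (x : ℤ)).natAbs ≠ ((f j).eval (x : ℤ)).natAbs)

theorem mem_Gd {m : ℕ} {f : Fin m → ℤ[X]} {N x : ℕ} : x ∈ Gd f N ↔ (1 ≤ x ∧ x ≤ N) ∧
    (∀ k, Nat.sqrt N ≤ ((f k).eval (x : ℤ)).natAbs) ∧
    ∀ i j, i ≠ j → ((f i).eval (x : ℤ)).natAbs ≠ ((f j).eval (x : ℤ)).natAbs := by
  classical
  unfold Gd
  simp only [mem_filter, mem_Icc]

theorem zero_card {g : ℤ[X]} (hg : g ≠ 0) (Y : Finset ℕ) (hY : ∀ x ∈ Y, g.eval (x : ℤ) = 0) : Y.card ≤ g.natDegree := by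
  classical
  have h4 : Y.card ≤ g.roots.toFinset.card := by
    apply card_le_card_of_injOn (fun x : ℕ => (x : ℤ))
    · intro x hx
      rw [mem_coe, Multiset.mem_toFinset, mem_roots hg, IsRoot.def, hY x (mem_coe.1 hx)]
    · intro x _ y _ h
      have h' : (x : ℤ) = (y : ℤ) := h
      exact_mod_cast h'
  exact h4.trans ((Multiset.toFinset_card_le _).trans (card_roots' _))

variable {m d C N : ℕ} {f : Fin m → ℤ[X]}

theorem Sys.bad (h : Sys m d C N f) : ((Icc 1 N) \ Gd f N).card ≤ m * ((Nat.sqrt N + 1) * (2 * d)) + m * m * (2 * d) := by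
  classical
  have h1 : (Icc 1 N) \ Gd f N ⊆ (univ.biUnion (fun k => (Icc 1 N).filter (fun x : ℕ => ((f k).eval (x : ℤ)).natAbs ≤ Nat.sqrt N))) ∪
      ((univ : Finset (Fin m × Fin m)).biUnion (fun ij => (Icc 1 N).filter (fun x : ℕ => ij.1 ≠ ij.2 ∧
        ((f ij.1).eval (x : ℤ)).natAbs = ((f ij.2).eval (x : ℤ)).natAbs))) := by
    intro x hx
    rw [Finset.mem_sdiff, mem_Gd, mem_Icc] at hx
    obtain ⟨h2, h3⟩ := hx
    rw [mem_union, mem_biUnion, mem_biUnion]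
    by_cases h4 : ∀ k, Nat.sqrt N ≤ ((f k).eval (x : ℤ)).natAbs
    · right
      have h5 : ¬ ∀ i j, i ≠ j → ((f i).eval (x : ℤ)).natAbs ≠ ((f j).eval (x : ℤ)).natAbs := fun h5 => h3 ⟨h2, h4, h5⟩
      push Not at h5
      obtain ⟨i, j, hij, h6⟩ := h5
      exact ⟨(i, j), mem_univ _, mem_filter.2 ⟨mem_Icc.2 h2, hij, h6⟩⟩
    · left
      push Not at h4
      obtain ⟨k, hk⟩ := h4
      exact ⟨k, mem_univ _, mem_filter.2 ⟨mem_Icc.2 h2, hk.le⟩⟩
  refine (card_le_card h1).trans ((card_union_le _ _).trans (Nat.add_le_add ?_ ?_))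
  · refine card_biUnion_le.trans ((sum_le_card_nsmul _ _ ((Nat.sqrt N + 1) * (2 * d)) (fun k _ => ?_)).trans (by simp))
    refine (small_card (h.pos k) (Nat.sqrt N) _ (fun x hx => (mem_filter.1 hx).2)).trans ?_
    exact Nat.mul_le_mul_left _ (Nat.mul_le_mul_left _ (h.le k))
  · refine card_biUnion_le.trans ((sum_le_card_nsmul _ _ (2 * d) (fun ij _ => ?_)).trans (by simp))
    by_cases hij : ij.1 = ij.2
    · have : (Icc 1 N).filter (fun x : ℕ => ij.1 ≠ ij.2 ∧ ((f ij.1).eval (x : ℤ)).natAbs = ((f ij.2).eval (x : ℤ)).natAbs) = ∅ := by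
        rw [filter_eq_empty_iff]
        intro x _ h2
        exact h2.1 hij
      rw [this]
      simp
    · obtain ⟨h2, h3⟩ := h.ne _ _ hij
      have h4 : (Icc 1 N).filter (fun x : ℕ => ij.1 ≠ ij.2 ∧ ((f ij.1).eval (x : ℤ)).natAbs = ((f ij.2).eval (x : ℤ)).natAbs) ⊆
          (Icc 1 N).filter (fun x : ℕ => (f ij.1 - f ij.2).eval (x : ℤ) = 0) ∪
          (Icc 1 N).filter (fun x : ℕ => (f ij.1 + f ij.2).eval (x : ℤ) = 0) := by
        intro x hx
        rw [mem_filter] at hx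
        rw [mem_union, mem_filter, mem_filter, eval_sub, eval_add]
        rcases Int.natAbs_eq_natAbs_iff.1 hx.2.2 with h5 | h5
        · exact Or.inl ⟨hx.1, by rw [h5, sub_self]⟩
        · exact Or.inr ⟨hx.1, by rw [h5, neg_add_cancel]⟩
      refine (card_le_card h4).trans ((card_union_le _ _).trans ?_)
      have h5 := zero_card (sub_ne_zero.2 h2) ((Icc 1 N).filter (fun x : ℕ => (f ij.1 - f ij.2).eval (x : ℤ) = 0))
        (fun x hx => (mem_filter.1 hx).2)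
      have h6 := zero_card (g := f ij.1 + f ij.2) (fun h7 => h3 (eq_neg_of_add_eq_zero_left h7))
        ((Icc 1 N).filter (fun x : ℕ => (f ij.1 + f ij.2).eval (x : ℤ) = 0)) (fun x hx => (mem_filter.1 hx).2)
      have h7 : (f ij.1 - f ij.2).natDegree ≤ d := (natDegree_sub_le _ _).trans (max_le (h.le _) (h.le _))
      have h8 : (f ij.1 + f ij.2).natDegree ≤ d := (natDegree_add_le _ _).trans (max_le (h.le _) (h.le _))
      omega

theorem Sys.deg (h : Sys m d C N f) : (∏ k, f k).natDegree ≤ m * d := by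
  refine (natDegree_prod_le _ _).trans ((sum_le_card_nsmul _ _ d (fun k _ => h.le k)).trans (by simp))

theorem Sys.val (h : Sys m d C N f) (hN : d + 1 ≤ N) (hN9 : 9 ≤ N) (k : Fin m) {x : ℕ} (hx : x ≤ N) :
    ((f k).eval (x : ℤ)).natAbs ≤ (Nat.sqrt N) ^ (4 * (C + d + 1)) := by
  have h1 := val_le (h.le k) (H := N ^ C) (fun i => by
    push_cast
    exact h.coef k i) hx (by omega)
  calc ((f k).eval (x : ℤ)).natAbs ≤ (d + 1) * (N ^ C * N ^ d) := h1
    _ ≤ N * (N ^ C * N ^ d) := Nat.mul_le_mul_right _ hN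
    _ = N ^ (C + d + 1) := by
      rw [pow_succ, pow_add]
      ring
    _ ≤ ((Nat.sqrt N) ^ 4) ^ (C + d + 1) := Nat.pow_le_pow_left (lt_sqrt_pow hN9) _
    _ = _ := by rw [← pow_mul]

theorem Sys.mx_le (h : Sys m d C N f) (hN : d + 1 ≤ N) (hN9 : 9 ≤ N) (k : Fin m) :
    mx (f k) N ≤ (Nat.sqrt N) ^ (4 * (C + d + 1)) := by
  unfold mx
  refine Finset.sup_le (fun x hx => h.val hN hN9 k (mem_Icc.1 hx).2)

theorem Sys.le_mx' (h : Sys m d C N f) (hN : (Nat.sqrt N + 1) * (2 * d) ≤ N) (k : Fin m) : Nat.sqrt N ≤ mx (f k) N := by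
  have h1 := mx_large (h.pos k) N
  by_contra hcon
  push Not at hcon
  have h2 : (mx (f k) N + 1) * (2 * (f k).natDegree) < (Nat.sqrt N + 1) * (2 * d) := by
    have h3 := h.le k
    have h4 := h.pos k
    calc (mx (f k) N + 1) * (2 * (f k).natDegree) ≤ (mx (f k) N + 1) * (2 * d) := Nat.mul_le_mul_left _ (by omega)
      _ < (Nat.sqrt N + 1) * (2 * d) := Nat.mul_lt_mul_of_pos_right (by omega) (by omega)
  omega

theorem sqrt_mul_le (a : ℕ) : ∀ᶠ N : ℕ in atTop, (Nat.sqrt N + 1) * a ≤ N := by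
  filter_upwards [sqrt_top.eventually_ge_atTop (2 * a + 1)] with N hN
  have h1 := Nat.sqrt_le' N
  nlinarith

theorem Sys.dvd_iff (_h : Sys m d C N f) {p x : ℕ} (hp : p.Prime) :
    (p : ℤ) ∣ (∏ k, f k).eval (x : ℤ) ↔ ∃ k, p ∣ ((f k).eval (x : ℤ)).natAbs := by
  rw [eval_prod, Prime.dvd_finsetProd_iff (Nat.prime_iff_prime_int.1 hp)]
  constructor
  · rintro ⟨k, _, hk⟩
    exact ⟨k, Int.natCast_dvd.1 hk⟩
  · rintro ⟨k, hk⟩
    exact ⟨k, mem_univ k, Int.natCast_dvd.2 hk⟩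

variable {Ω : Type*} [MeasurableSpace Ω] {μ : Measure Ω} [IsProbabilityMeasure μ] {A : Ω → Set ℕ} {z : ℕ → ℕ}

theorem Model.prob (hM : Model μ A z) (hz : Level z) (C1 : ℕ) : ∀ᶠ n : ℕ in atTop, ∀ v : ℕ, n ≤ v → v ≤ n ^ C1 →
    μ.real {ω | v ∈ A ω} ≤ 1 / (VV (z (n ^ C1)) * Real.log v) ∧
    ((∃ p : ℕ, p.Prime ∧ p ≤ z n ∧ p ∣ v) → μ.real {ω | v ∈ A ω} = 0) ∧
    ((∀ p : ℕ, p.Prime → p ≤ z (n ^ C1) → ¬ p ∣ v) → 1 / (VV (z n) * Real.log v) ≤ μ.real {ω | v ∈ A ω}) := by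
  obtain ⟨n1, hn1⟩ := eventually_atTop.1 hM.yes
  obtain ⟨n2, hn2⟩ := eventually_atTop.1 hM.no
  filter_upwards [eventually_ge_atTop (n1 + n2 + 2)] with n hn v hv hv'
  have hv0 : 0 < Real.log (v : ℝ) := Real.log_pos (by exact_mod_cast (show 1 < v by omega))
  have hzv : z n ≤ z v := hz.mono hv
  have hzv' : z v ≤ z (n ^ C1) := hz.mono hv'
  refine ⟨?_, fun ⟨p, hp, hpz, hpv⟩ => hn2 v (by omega) ⟨p, hp, hpz.trans hzv, hpv⟩, fun h => ?_⟩
  · by_cases h : ∀ p : ℕ, p.Prime → p ≤ z v → ¬ p ∣ v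
    · rw [hn1 v (by omega) h]
      have h1 := VV_anti hzv'
      have h2 := VV_pos (z (n ^ C1))
      exact one_div_le_one_div_of_le (by positivity) (mul_le_mul_of_nonneg_right h1 hv0.le)
    · push Not at h
      rw [hn2 v (by omega) h]
      have h2 := VV_pos (z (n ^ C1))
      positivity
  · rw [hn1 v (by omega) (fun p hp hpz => h p hp (hpz.trans hzv'))]
    have h1 := VV_anti hzv
    have h2 := VV_pos (z v)
    exact one_div_le_one_div_of_le (by positivity) (mul_le_mul_of_nonneg_right h1 hv0.le)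

theorem pw_eq {x : ℕ} (h : ∀ i j, i ≠ j → ((f i).eval (x : ℤ)).natAbs ≠ ((f j).eval (x : ℤ)).natAbs) :
    pw μ A (vf f x) = ∏ k, μ.real {ω | ((f k).eval (x : ℤ)).natAbs ∈ A ω} := by
  unfold pw vf
  rw [prod_image]
  intro i _ j _ hij
  by_contra hne
  exact h i j hne hij

end Pool.Agent.Q197.BH
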